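import Pool.Agent.Hhelper71.Mult.Process

/-!
# The bound for codes with bounded multipliers
-/

namespace Pool.Agent.Hhelper71.Dbl

variable {a : ℕ} {ι : Type*} [Fintype ι] [DecidableEq ι]

/-- Elements of `H` in a set with small oscillations are separated by the other coordinates. -/
theorem exists_clique2 [NeZero a] {b G : ℕ} (hb : 0 < b) (hab : 2 * b ≤ a)
    (hgap : (G : ℤ) ^ 3 * ((a : ℤ) - 2 * b) < a)
    (H : AddSubgroup (ι → ZMod a))
    (hH : ∀ x ∈ H, x ≠ 0 → ∃ i, b ≤ (x i).val ∧ b ≤ (-x i).val) (R J : Finset ι)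
    (hRJ : Disjoint R J)
    (hR : ∀ i ∈ R, ∃ g : ℕ, 2 ≤ g ∧ g ≤ G ∧ ∃ j ∈ R ∪ J, (∀ x ∈ H, (g : ZMod a) * x i = 0) ∨
      (∀ x ∈ H, (g : ZMod a) * x i = x j) ∨ (∀ x ∈ H, (g : ZMod a) * x i = -x j)) :
    ∃ T : Finset (ι → ZMod a),
      Nat.card H * b ^ J.card ≤ 2 ^ R.card * a ^ J.card * T.card ∧
      ∀ x ∈ T, ∀ y ∈ T, x ≠ y → ∃ i ∉ R ∪ J, b ≤ (x i - y i).val ∧ b ≤ (y i - x i).val := by
  classical
  have key : ∀ i, ∃ (j : ι) (ε : ℤ) (g : ℕ), i ∈ R → (2 ≤ g ∧ g ≤ G) ∧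
      (ε = 0 ∨ ε = 1 ∨ ε = -1) ∧ j ∈ R ∪ J ∧
      ∀ h ∈ H, (g : ZMod a) * h i = (ε : ZMod a) * h j := by
    intro i
    by_cases hi : i ∈ R
    swap
    · exact ⟨i, 0, 0, fun h => (hi h).elim⟩
    obtain ⟨g, hg1, hg2, j, hj, h | h | h⟩ := hR i hi
    · exact ⟨j, 0, g, fun _ => ⟨⟨hg1, hg2⟩, Or.inl rfl, hj, fun x hx => by rw [h x hx]; simp⟩⟩
    · exact ⟨j, 1, g, fun _ => ⟨⟨hg1, hg2⟩, Or.inr (Or.inl rfl), hj,
        fun x hx => by rw [h x hx]; simp⟩⟩
    · exact ⟨j, -1, g, fun _ => ⟨⟨hg1, hg2⟩, Or.inr (Or.inr rfl), hj,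
        fun x hx => by rw [h x hx]; simp⟩⟩
  choose σ e γ he using key
  set T0 : Finset (ι → ZMod a) := Finset.univ.filter (fun x => x ∈ H) with hT0
  have hT0H : ∀ t ∈ T0, t ∈ H := fun t ht => (Finset.mem_filter.1 ht).2
  have hcard0 : Nat.card H = T0.card := by
    rw [hT0, Nat.card_eq_fintype_card, Fintype.card_subtype]
  obtain ⟨T1, hT1, hc1, ho1⟩ := roots (show b ≤ a by omega) T0 J
  have hsd : (R ∪ J) \ J = R := by
    rw [Finset.union_sdiff_right, Finset.sdiff_eq_self_of_disjoint hRJ]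
  obtain ⟨T2, hT2, hc2, ho2⟩ := process2 hb hab hgap H R (R ∪ J) σ e γ he R.card J T1
    (fun t ht => hT0H t (hT1 ht)) Finset.subset_union_right
    (fun i hi hiR => (Finset.mem_union.1 hi).resolve_left hiR) ho1 (by rw [hsd])
  refine ⟨T2, ?_, ?_⟩
  · calc Nat.card H * b ^ J.card = T0.card * b ^ J.card := by rw [hcard0]
      _ ≤ a ^ J.card * T1.card := hc1
      _ ≤ a ^ J.card * (2 ^ R.card * T2.card) := Nat.mul_le_mul_left _ hc2
      _ = 2 ^ R.card * a ^ J.card * T2.card := by ring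
  · intro s hs t ht hst
    obtain ⟨i, hi1, hi2⟩ := hH (s - t)
      (H.sub_mem (hT0H s (hT1 (hT2 hs))) (hT0H t (hT1 (hT2 ht)))) (sub_ne_zero.2 hst)
    refine ⟨i, ?_, hi1, by rwa [Pi.sub_apply, neg_sub] at hi2⟩
    intro hiRJ
    obtain ⟨f, hf1, hf2⟩ := ho2 i hiRJ
    have h1 := hf2 s hs t ht
    have h2 := hf2 t ht s hs
    have h3 : (((f s - f t : ℤ)) : ZMod a) = (s - t) i := by
      push_cast
      rw [hf1 s hs, hf1 t ht]
      rfl
    rcases le_total 0 (f s - f t) with h4 | h4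
    · obtain ⟨k, hk⟩ := Int.eq_ofNat_of_zero_le h4
      rw [hk] at h3
      rw [← h3] at hi1
      push_cast at hi1
      rw [ZMod.val_natCast] at hi1
      have := Nat.mod_le k a
      omega
    · obtain ⟨k, hk⟩ := Int.eq_ofNat_of_zero_le (show 0 ≤ -(f s - f t) by linarith)
      have h5 : (((-(f s - f t) : ℤ)) : ZMod a) = -(s - t) i := by
        rw [← h3]
        push_cast
        ring
      rw [hk] at h5
      rw [← h5] at hi2
      push_cast at hi2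
      rw [ZMod.val_natCast] at hi2
      have := Nat.mod_le k a
      omega

omit [Fintype ι] [DecidableEq ι] in
theorem main_bound2 {p q a b n G : ℕ} (hq : 0 < q) (hpq : 2 * q ≤ p)
    (hG : G ^ 3 * (p - 2 * q) < p) (hb : 0 < b) (hab : a * q = b * p)
    (H : AddSubgroup (Fin n → ZMod a))
    (hH : ∀ x ∈ H, x ≠ 0 → ∃ i, b ≤ (x i).val ∧ b ≤ (-x i).val) (R J : Finset (Fin n))
    (hRJ : Disjoint R J)
    (hR : ∀ i ∈ R, ∃ g : ℕ, 2 ≤ g ∧ g ≤ G ∧ ∃ j ∈ R ∪ J, (∀ x ∈ H, (g : ZMod a) * x i = 0) ∨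
      (∀ x ∈ H, (g : ZMod a) * x i = x j) ∨ (∀ x ∈ H, (g : ZMod a) * x i = -x j)) :
    (Nat.card H : ℝ) ≤ 2 ^ R.card * ((p : ℝ) / q) ^ J.card *
      Theta p q ^ (n - R.card - J.card) := by
  have hp : 0 < p := by omega
  have ha : 0 < a := by
    rcases Nat.eq_zero_or_pos a with h | h
    · rw [h, zero_mul] at hab
      have := Nat.mul_pos hb hp
      omega
    · exact h
  have : NeZero a := ⟨ha.ne'⟩
  have : NeZero p := ⟨hp.ne'⟩
  have h2b : 2 * b ≤ a := by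
    by_contra h
    push Not at h
    have h1 : a * q < b * p := by
      calc a * q < (2 * b) * q := Nat.mul_lt_mul_of_pos_right h hq
        _ = b * (2 * q) := by ring
        _ ≤ b * p := Nat.mul_le_mul_left _ hpq
    omega
  have hgap : (G : ℤ) ^ 3 * ((a : ℤ) - 2 * b) < a := by
    have hpz : (0 : ℤ) < p := by exact_mod_cast hp
    have haz : (0 : ℤ) < a := by exact_mod_cast ha
    have hqz : (0 : ℤ) < q := by exact_mod_cast hq
    have hGz : (G : ℤ) ^ 3 * ((p : ℤ) - 2 * q) < p := by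
      have : ((G ^ 3 * (p - 2 * q) : ℕ) : ℤ) < (p : ℤ) := by exact_mod_cast hG
      push_cast [Nat.cast_sub hpq] at this
      exact this
    have habz : (a : ℤ) * q = b * p := by exact_mod_cast hab
    have h1 : (p : ℤ) * ((G : ℤ) ^ 3 * ((a : ℤ) - 2 * b)) < p * a := by
      calc (p : ℤ) * ((G : ℤ) ^ 3 * ((a : ℤ) - 2 * b)) =
            (G : ℤ) ^ 3 * (a * p - 2 * (b * p)) := by ring
        _ = a * ((G : ℤ) ^ 3 * ((p : ℤ) - 2 * q)) := by rw [← habz]; ring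
        _ < a * p := mul_lt_mul_of_pos_left hGz haz
        _ = p * a := mul_comm _ _
    exact lt_of_mul_lt_mul_left h1 hpz.le
  have hq0 : (0 : ℝ) < q := by exact_mod_cast hq
  have hb0 : (0 : ℝ) < b := by exact_mod_cast hb
  have habR : (a : ℝ) * q = b * p := by exact_mod_cast hab
  obtain ⟨T, hT1, hT2⟩ := exists_clique2 hb h2b hgap H hH R J hRJ hR
  have hcompl : (R ∪ J)ᶜ.card = n - R.card - J.card := by
    rw [Finset.card_compl, Finset.card_union_of_disjoint hRJ, Fintype.card_fin]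
    omega
  obtain ⟨T1, hT3, hT4⟩ := sep_restrict hb (R ∪ J) hcompl hT2
  obtain ⟨T2, hT5, hT6⟩ := sep_map (p := p) (q := q) hb hq hab.le hT4
  have h1 := card_le_theta_pow T2 hT6
  rw [hT5, hT3] at h1
  have h3 : (p : ℝ) / q = a / b := by
    rw [div_eq_div_iff hq0.ne' hb0.ne']
    linarith
  rw [h3, div_pow]
  have hbJ : (0 : ℝ) < (b : ℝ) ^ J.card := by positivity
  rw [← mul_div_assoc, div_mul_eq_mul_div, le_div_iff₀ hbJ]
  have hT1' : (Nat.card H : ℝ) * (b : ℝ) ^ J.card ≤ 2 ^ R.card * (a : ℝ) ^ J.card * T.card := by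
    exact_mod_cast hT1
  exact hT1'.trans (mul_le_mul_of_nonneg_left h1 (by positivity))

end Pool.Agent.Hhelper71.Dbl
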