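import Pool.Agent.Hhelper71.Dbl.Core

/-!
# Coordinates with a small multiple that is another coordinate up to sign
-/

namespace Pool.Agent.Hhelper71.Dbl

variable {a : ℕ} {X : Type*}

theorem avg {κ : Type*} (K : Finset κ) (hK : K.Nonempty) (T : Finset X) (P : κ → X → Prop)
    [∀ k, DecidablePred (P k)] [∀ t, DecidablePred (fun k => P k t)] (w : ℕ)
    (hw : w ≤ ∑ t ∈ T, (K.filter (fun k => P k t)).card) :
    ∃ k ∈ K, w ≤ K.card * (T.filter (P k)).card := by
  have hsum : ∑ k ∈ K, (T.filter (P k)).card = ∑ t ∈ T, (K.filter (fun k => P k t)).card := by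
    simp_rw [Finset.card_filter]
    rw [Finset.sum_comm]
  by_contra hcon
  push Not at hcon
  have h1 := Finset.sum_lt_sum_of_nonempty hK hcon
  rw [← Finset.mul_sum, hsum, Finset.sum_const, smul_eq_mul] at h1
  have h2 := Nat.mul_le_mul_left K.card hw
  omega

theorem count_val {g : ℕ} [NeZero g] (ρ : ZMod g) (A : Finset ℕ) (hA : ∀ k ∈ A, k < g) :
    (Finset.univ.filter (fun r : ZMod g => (ρ - r).val ∈ A)).card = A.card := by
  classical
  refine Finset.card_bij' (fun r _ => (ρ - r).val) (fun k _ => ρ - (k : ZMod g)) ?_ ?_ ?_ ?_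
  · intro r hr
    exact (Finset.mem_filter.1 hr).2
  · intro k hk
    rw [Finset.mem_filter]
    refine ⟨Finset.mem_univ _, ?_⟩
    rw [sub_sub_cancel, ZMod.val_natCast, Nat.mod_eq_of_lt (hA k hk)]
    exact hk
  · intro r _
    show ρ - (((ρ - r).val : ℕ) : ZMod g) = r
    rw [ZMod.natCast_zmod_val, sub_sub_cancel]
  · intro k hk
    show (ρ - (ρ - (k : ZMod g))).val = k
    rw [sub_sub_cancel, ZMod.val_natCast, Nat.mod_eq_of_lt (hA k hk)]

/-- Lifts of `x` from lifts `F` of `g * x`. -/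
theorem lifts [NeZero a] {T : Finset X} {x : X → ZMod a} {F : X → ℤ} {g : ℕ} [NeZero g] {t0 : X}
    (hrel : ∀ t ∈ T, (g : ZMod a) * (x t - x t0) = ((F t - F t0 : ℤ) : ZMod a)) :
    ∃ ρ : X → ZMod g, ∀ r0 : ZMod g, ∃ U : X → ℤ, ∀ t ∈ T, ((U t : ℤ) : ZMod a) = x t ∧
      (g : ℤ) * (U t - ((x t0).val : ℤ)) = F t - F t0 + a * ((r0.val : ℤ) + ((ρ t - r0).val : ℤ)) := by
  have key : ∀ t, ∃ r : ℤ, t ∈ T →
      (g : ℤ) * (((x t).val : ℤ) - ((x t0).val : ℤ)) = F t - F t0 + a * r := by
    intro t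
    by_cases ht : t ∈ T
    swap
    · exact ⟨0, fun h => (ht h).elim⟩
    have h1 : (((g : ℤ) * (((x t).val : ℤ) - ((x t0).val : ℤ)) - (F t - F t0) : ℤ) : ZMod a) = 0 := by
      have h2 := hrel t ht
      push_cast at h2 ⊢
      rw [ZMod.natCast_zmod_val, ZMod.natCast_zmod_val, h2, sub_self]
    rw [ZMod.intCast_zmod_eq_zero_iff_dvd] at h1
    obtain ⟨r, hr⟩ := h1
    exact ⟨r, fun _ => by linarith⟩
  choose r hr using key
  refine ⟨fun t => (r t : ZMod g), fun r0 => ?_⟩
  have key2 : ∀ t, ∃ q : ℤ, r t = (r0.val : ℤ) + (((r t : ZMod g) - r0).val : ℤ) + g * q := by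
    intro t
    have h1 : ((r t - ((r0.val : ℤ) + (((r t : ZMod g) - r0).val : ℤ)) : ℤ) : ZMod g) = 0 := by
      push_cast
      rw [ZMod.natCast_zmod_val, ZMod.natCast_zmod_val]
      ring
    rw [ZMod.intCast_zmod_eq_zero_iff_dvd] at h1
    obtain ⟨q, hq⟩ := h1
    exact ⟨q, by linarith⟩
  choose q hq using key2
  refine ⟨fun t => ((x t).val : ℤ) - a * q t, fun t ht => ⟨?_, ?_⟩⟩
  · push_cast
    rw [ZMod.natCast_zmod_val, ZMod.natCast_self]
    ring
  · have h1 := hr t ht
    have h2 := hq t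
    dsimp only
    linear_combination h1 + (a : ℤ) * h2

theorem child_even [NeZero a] {T : Finset X} {x : X → ZMod a} {F : X → ℤ} {D : ℤ} {s b : ℕ}
    (hs : 0 < s) (hF : ∀ u ∈ T, ∀ t ∈ T, F u - F t ≤ D) (hcond : D + a * ((s : ℤ) - 1) < 2 * s * b)
    (hrel : ∀ u ∈ T, ∀ t ∈ T, ((2 * s : ℕ) : ZMod a) * (x u - x t) = ((F u - F t : ℤ) : ZMod a)) :
    ∃ T' ⊆ T, T.card ≤ 2 * T'.card ∧ Osc T' x ((b : ℤ) - 1) := by
  classical
  rcases T.eq_empty_or_nonempty with rfl | ⟨t0, ht0⟩
  · exact ⟨∅, subset_rfl, by simp, fun _ => 0, by simp, by simp⟩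
  have : NeZero (2 * s) := ⟨by omega⟩
  obtain ⟨ρ, hρ⟩ := lifts (g := 2 * s) (fun t ht => hrel t ht t0 ht0)
  obtain ⟨r0, -, hr0⟩ := avg (Finset.univ : Finset (ZMod (2 * s))) Finset.univ_nonempty T
    (fun r t => (ρ t - r).val ∈ Finset.range s) (s * T.card) (by
      have : ∀ t ∈ T, (Finset.univ.filter
          (fun r : ZMod (2 * s) => (ρ t - r).val ∈ Finset.range s)).card = s := by
        intro t _
        rw [count_val _ _ (fun k hk => by have := Finset.mem_range.1 hk; omega),
          Finset.card_range]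
      rw [Finset.sum_congr rfl this, Finset.sum_const, smul_eq_mul, mul_comm])
  obtain ⟨U, hU⟩ := hρ r0
  refine ⟨T.filter (fun t => (ρ t - r0).val ∈ Finset.range s), Finset.filter_subset _ _, ?_, U, ?_,
    ?_⟩
  · rw [Finset.card_univ, ZMod.card] at hr0
    have h1 : s * T.card ≤ s * (2 * (T.filter (fun t => (ρ t - r0).val ∈ Finset.range s)).card) := by
      calc s * T.card ≤ _ := hr0
        _ = _ := by ring
    exact Nat.le_of_mul_le_mul_left h1 hs
  · intro t ht
    exact (hU t (Finset.mem_filter.1 ht).1).1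
  · intro u hu t ht
    obtain ⟨hu1, hu2⟩ := Finset.mem_filter.1 hu
    obtain ⟨ht1, ht2⟩ := Finset.mem_filter.1 ht
    rw [Finset.mem_range] at hu2 ht2
    have h1 := (hU u hu1).2
    have h2 := (hU t ht1).2
    have h3 := hF u hu1 t ht1
    push_cast at h1 h2
    have h4 : (((ρ u - r0).val : ℤ) - ((ρ t - r0).val : ℤ)) ≤ s - 1 := by omega
    have h5 : (a : ℤ) * (((ρ u - r0).val : ℤ) - ((ρ t - r0).val : ℤ)) ≤ a * ((s : ℤ) - 1) :=
      mul_le_mul_of_nonneg_left h4 (by positivity)
    have h6 : 2 * (s : ℤ) * (U u - U t) < 2 * s * b := by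
      calc 2 * (s : ℤ) * (U u - U t) = (F u - F t) +
            a * (((ρ u - r0).val : ℤ) - ((ρ t - r0).val : ℤ)) := by linear_combination h1 - h2
        _ ≤ D + a * ((s : ℤ) - 1) := by linarith
        _ < 2 * s * b := hcond
    have h7 : U u - U t < b := lt_of_mul_lt_mul_left h6 (by positivity)
    linarith

theorem child_odd [NeZero a] {T : Finset X} {x : X → ZMod a} {F : X → ℤ} {D m0 : ℤ} {s b : ℕ}
    (hs : 0 < s) (hF1 : ∀ t ∈ T, m0 ≤ F t) (hF2 : ∀ t ∈ T, F t ≤ m0 + D)
    (hcond1 : D + a * ((s : ℤ) - 1) < (2 * s + 1) * b)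
    {u : ℤ} (hu : u = (2 * s + 1) * b - 1 - a * s) (hcond2 : D ≤ 2 * u + 1)
    (hrel : ∀ t ∈ T, ∀ t' ∈ T,
      ((2 * s + 1 : ℕ) : ZMod a) * (x t - x t') = ((F t - F t' : ℤ) : ZMod a)) :
    ∃ T' ⊆ T, (2 * s + 1) * T.card +
        (T.filter (fun t => F t ≤ m0 + u ∧ m0 + D - u ≤ F t)).card ≤
        2 * (2 * s + 1) * T'.card ∧ Osc T' x ((b : ℤ) - 1) := by
  classical
  rcases T.eq_empty_or_nonempty with rfl | ⟨t0, ht0⟩
  · exact ⟨∅, subset_rfl, by simp, fun _ => 0, by simp, by simp⟩
  have : NeZero (2 * s + 1) := ⟨by omega⟩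
  obtain ⟨ρ, hρ⟩ := lifts (g := 2 * s + 1) (fun t ht => hrel t ht t0 ht0)
  -- the two kinds of windows
  set P : ZMod (2 * s + 1) × Bool → X → Prop := fun k t =>
    if k.2 then ((ρ t - k.1).val ∈ Finset.Icc 1 s ∨ ((ρ t - k.1).val = 0 ∧ m0 + D - u ≤ F t))
    else ((ρ t - k.1).val < s ∨ ((ρ t - k.1).val = s ∧ F t ≤ m0 + u)) with hP
  have hcount : ∀ t ∈ T, (2 * s + 1) + (if F t ≤ m0 + u ∧ m0 + D - u ≤ F t then 1 else 0) ≤
      ((Finset.univ : Finset (ZMod (2 * s + 1) × Bool)).filter (fun k => P k t)).card := by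
    intro t _
    have hsplit : ((Finset.univ : Finset (ZMod (2 * s + 1) × Bool)).filter (fun k => P k t)).card =
        (Finset.univ.filter (fun r : ZMod (2 * s + 1) => P (r, true) t)).card +
        (Finset.univ.filter (fun r : ZMod (2 * s + 1) => P (r, false) t)).card := by
      rw [Finset.card_filter, Fintype.sum_prod_type, Finset.card_filter, Finset.card_filter,
        ← Finset.sum_add_distrib]
      refine Finset.sum_congr rfl fun r _ => ?_
      rw [Fintype.sum_bool]
    rw [hsplit]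
    have c1 : (Finset.univ.filter (fun r : ZMod (2 * s + 1) => (ρ t - r).val ∈ Finset.Icc 1 s)).card
        = s := by
      rw [count_val _ _ (fun k hk => by have := Finset.mem_Icc.1 hk; omega), Nat.card_Icc]
      omega
    have c2 : (Finset.univ.filter (fun r : ZMod (2 * s + 1) => (ρ t - r).val ∈
        Finset.range (s + 1))).card = s + 1 := by
      rw [count_val _ _ (fun k hk => by have := Finset.mem_range.1 hk; omega), Finset.card_range]
    have c3 : (Finset.univ.filter (fun r : ZMod (2 * s + 1) => (ρ t - r).val ∈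
        Finset.range s)).card = s := by
      rw [count_val _ _ (fun k hk => by have := Finset.mem_range.1 hk; omega), Finset.card_range]
    have e1 : s ≤ (Finset.univ.filter (fun r : ZMod (2 * s + 1) => P (r, true) t)).card := by
      refine c1.symm.le.trans (Finset.card_le_card fun r hr => ?_)
      rw [Finset.mem_filter] at hr ⊢
      exact ⟨hr.1, by simp only [hP, if_true]; exact Or.inl hr.2⟩
    have e2 : m0 + D - u ≤ F t →
        s + 1 ≤ (Finset.univ.filter (fun r : ZMod (2 * s + 1) => P (r, true) t)).card := by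
      intro hh
      refine c2.symm.le.trans (Finset.card_le_card fun r hr => ?_)
      rw [Finset.mem_filter, Finset.mem_range] at hr
      rw [Finset.mem_filter]
      refine ⟨hr.1, ?_⟩
      simp only [hP, if_true, Finset.mem_Icc]
      rcases Nat.eq_zero_or_pos (ρ t - r).val with h | h
      · exact Or.inr ⟨h, hh⟩
      · left
        omega
    have e3 : s ≤ (Finset.univ.filter (fun r : ZMod (2 * s + 1) => P (r, false) t)).card := by
      refine c3.symm.le.trans (Finset.card_le_card fun r hr => ?_)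
      rw [Finset.mem_filter, Finset.mem_range] at hr
      rw [Finset.mem_filter]
      refine ⟨hr.1, ?_⟩
      simp only [hP, Bool.false_eq_true, if_false]
      exact Or.inl hr.2
    have e4 : F t ≤ m0 + u →
        s + 1 ≤ (Finset.univ.filter (fun r : ZMod (2 * s + 1) => P (r, false) t)).card := by
      intro hh
      refine c2.symm.le.trans (Finset.card_le_card fun r hr => ?_)
      rw [Finset.mem_filter, Finset.mem_range] at hr
      rw [Finset.mem_filter]
      refine ⟨hr.1, ?_⟩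
      simp only [hP, Bool.false_eq_true, if_false]
      rcases lt_or_eq_of_le (Nat.lt_succ_iff.1 hr.2) with h | h
      · exact Or.inl h
      · exact Or.inr ⟨h, hh⟩
    by_cases h1 : F t ≤ m0 + u <;> by_cases h2 : m0 + D - u ≤ F t
    · have := e2 h2
      have := e4 h1
      rw [if_pos ⟨h1, h2⟩]
      omega
    · have := e4 h1
      rw [if_neg (fun h => h2 h.2)]
      omega
    · have := e2 h2
      rw [if_neg (fun h => h1 h.1)]
      omega
    · exfalso
      push Not at h1 h2
      linarith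
  obtain ⟨k, -, hk⟩ := avg (Finset.univ : Finset (ZMod (2 * s + 1) × Bool)) Finset.univ_nonempty T P
    ((2 * s + 1) * T.card + (T.filter (fun t => F t ≤ m0 + u ∧ m0 + D - u ≤ F t)).card) (by
      refine le_trans (le_of_eq ?_) (Finset.sum_le_sum hcount)
      rw [Finset.sum_add_distrib, Finset.sum_const, smul_eq_mul, Finset.card_filter, mul_comm])
  obtain ⟨U, hU⟩ := hρ k.1
  refine ⟨T.filter (P k), Finset.filter_subset _ _, ?_, U, ?_, ?_⟩
  · rw [Finset.card_univ, Fintype.card_prod, ZMod.card, Fintype.card_bool] at hk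
    calc _ ≤ _ := hk
      _ = _ := by ring
  · intro t ht
    exact (hU t (Finset.mem_filter.1 ht).1).1
  · intro v hv t ht
    obtain ⟨hv1, hv2⟩ := Finset.mem_filter.1 hv
    obtain ⟨ht1, ht2⟩ := Finset.mem_filter.1 ht
    have h1 := (hU v hv1).2
    have h2 := (hU t ht1).2
    push_cast at h1 h2
    have f1 := hF1 v hv1
    have f2 := hF2 v hv1
    have f3 := hF1 t ht1
    have f4 := hF2 t ht1
    have ha : (0 : ℤ) ≤ a := by positivity
    have key : (F v - F t) + a * (((ρ v - k.1).val : ℤ) - ((ρ t - k.1).val : ℤ)) <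
        (2 * s + 1) * b := by
      rcases k with ⟨r0, β⟩
      cases β
      · simp only [hP, Bool.false_eq_true, if_false] at hv2 ht2
        dsimp only
        rcases hv2 with hv2 | ⟨hv2, hv3⟩
        · have h5 : (a : ℤ) * (((ρ v - r0).val : ℤ) - ((ρ t - r0).val : ℤ)) ≤ a * ((s : ℤ) - 1) :=
            mul_le_mul_of_nonneg_left (by omega) ha
          linarith
        · have h5 : (a : ℤ) * (((ρ v - r0).val : ℤ) - ((ρ t - r0).val : ℤ)) ≤ a * (s : ℤ) :=
            mul_le_mul_of_nonneg_left (by omega) ha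
          linarith
      · simp only [hP, if_true, Finset.mem_Icc] at hv2 ht2
        dsimp only
        rcases ht2 with ht2 | ⟨ht2, ht3⟩
        · have h5 : (a : ℤ) * (((ρ v - r0).val : ℤ) - ((ρ t - r0).val : ℤ)) ≤ a * ((s : ℤ) - 1) :=
            mul_le_mul_of_nonneg_left (by omega) ha
          linarith
        · have h5 : (a : ℤ) * (((ρ v - r0).val : ℤ) - ((ρ t - r0).val : ℤ)) ≤ a * (s : ℤ) :=
            mul_le_mul_of_nonneg_left (by omega) ha
          linarith
    have h6 : (2 * (s : ℤ) + 1) * (U v - U t) < (2 * s + 1) * b := by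
      calc (2 * (s : ℤ) + 1) * (U v - U t) = (F v - F t) +
            a * (((ρ v - k.1).val : ℤ) - ((ρ t - k.1).val : ℤ)) := by linear_combination h1 - h2
        _ < (2 * s + 1) * b := key
    have h7 : U v - U t < b := lt_of_mul_lt_mul_left h6 (by positivity)
    linarith

end Pool.Agent.Hhelper71.Dbl
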