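import Pool.Agent.Hhelper71.Dbl.Core

/-!
# Mixed radix digits around a cycle of even multipliers
-/

namespace Pool.Agent.Hhelper71.Dbl

/-- Products of multipliers. -/
def cc (g : ℕ → ℤ) : ℕ → ℤ
  | 0 => 1
  | k + 1 => g k * cc g k

/-- Mixed radix values. -/
def AA (g ρ : ℕ → ℤ) : ℕ → ℤ
  | 0 => 0
  | k + 1 => g k * AA g ρ k + ρ k

/-- The lifts of the coordinates. -/
def vv (g ρ : ℕ → ℤ) (m : ℕ) (N : ℤ) (k : ℕ) : ℤ := cc g k * AA g ρ m - N * AA g ρ k

theorem vv_succ (g ρ : ℕ → ℤ) (m : ℕ) (N : ℤ) (k : ℕ) :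
    g k * vv g ρ m N k = N * ρ k + vv g ρ m N (k + 1) := by
  unfold vv
  rw [cc, AA]
  ring

theorem vv_last {g ρ : ℕ → ℤ} {m : ℕ} {N δ : ℤ} (hN : N = cc g m - δ) :
    vv g ρ m N m = δ * vv g ρ m N 0 := by
  unfold vv
  rw [cc, AA, hN]
  ring

theorem AA_sub (g ρ ρ' : ℕ → ℤ) (k : ℕ) :
    AA g (fun i => ρ i - ρ' i) k = AA g ρ k - AA g ρ' k := by
  induction k with
  | zero => simp [AA]
  | succ k ih =>
    rw [AA, AA, AA, ih]
    ring

theorem vv_sub (g ρ ρ' : ℕ → ℤ) (m : ℕ) (N : ℤ) (k : ℕ) :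
    vv g (fun i => ρ i - ρ' i) m N k = vv g ρ m N k - vv g ρ' m N k := by
  unfold vv
  rw [AA_sub, AA_sub]
  ring

theorem vv_zero (g ρ : ℕ → ℤ) (m : ℕ) (N : ℤ) : vv g ρ m N 0 = AA g ρ m := by
  unfold vv
  rw [cc, AA]
  ring

theorem vv_mod (g ρ : ℕ → ℤ) (m : ℕ) (N : ℤ) (k : ℕ) :
    N ∣ vv g ρ m N k - cc g k * vv g ρ m N 0 := by
  rw [vv_zero]
  exact ⟨-AA g ρ k, by unfold vv; ring⟩

theorem bound_small {m : ℕ} {v d s : ℕ → ℤ} {N G : ℤ} (hN : 0 < N)
    (hs : ∀ k < m, 1 ≤ s k) (hG : ∀ k < m, 2 * s k ≤ G) (hd : ∀ k < m, |d k| ≤ s k - 1)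
    (hv : ∀ k < m, 2 * s k * v k = N * d k + v (k + 1)) (hlast : |v m| = |v 0|) :
    ∀ k < m, 2 * G * |v k| ≤ (G - 1) * N := by
  intro k hk
  have hm : 0 < m := by omega
  obtain ⟨k0, hk0, hmax⟩ := Finset.exists_max_image (Finset.range m) (fun k => |v k|)
    ⟨0, Finset.mem_range.2 hm⟩
  rw [Finset.mem_range] at hk0
  have h1 : |v (k0 + 1)| ≤ |v k0| := by
    rcases lt_or_eq_of_le (Nat.succ_le_iff.2 hk0) with h | h
    · exact hmax _ (Finset.mem_range.2 h)
    · rw [Nat.succ_eq_add_one] at h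
      rw [h, hlast]
      exact hmax _ (Finset.mem_range.2 hm)
  have hs0 := hs k0 hk0
  have hG0 := hG k0 hk0
  have h2 : 2 * s k0 * |v k0| ≤ N * (s k0 - 1) + |v k0| := by
    calc 2 * s k0 * |v k0| = |2 * s k0 * v k0| := by
          rw [abs_mul, abs_of_pos (show (0 : ℤ) < 2 * s k0 by linarith)]
      _ = |N * d k0 + v (k0 + 1)| := by rw [hv k0 hk0]
      _ ≤ |N * d k0| + |v (k0 + 1)| := abs_add_le _ _
      _ = N * |d k0| + |v (k0 + 1)| := by rw [abs_mul, abs_of_pos hN]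
      _ ≤ N * (s k0 - 1) + |v k0| := by
        have := mul_le_mul_of_nonneg_left (hd k0 hk0) hN.le
        linarith
  have h3 : (2 * s k0 - 1) * (2 * G * |v k0|) ≤ (2 * s k0 - 1) * ((G - 1) * N) := by
    have h4 : (2 * s k0 - 1) * |v k0| ≤ N * (s k0 - 1) := by linarith
    have h5 : 2 * G * ((2 * s k0 - 1) * |v k0|) ≤ 2 * G * (N * (s k0 - 1)) :=
      mul_le_mul_of_nonneg_left h4 (by linarith)
    have h6 : 2 * G * (s k0 - 1) ≤ (2 * s k0 - 1) * (G - 1) := by nlinarith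
    have h7 : 2 * G * (s k0 - 1) * N ≤ (2 * s k0 - 1) * (G - 1) * N :=
      mul_le_mul_of_nonneg_right h6 hN.le
    linarith
  have h8 : 2 * G * |v k0| ≤ (G - 1) * N := le_of_mul_le_mul_left h3 (by linarith)
  have h9 : |v k| ≤ |v k0| := hmax _ (Finset.mem_range.2 hk)
  have h10 : 2 * G * |v k| ≤ 2 * G * |v k0| := mul_le_mul_of_nonneg_left h9 (by linarith)
  linarith

/-- A normal position. -/
def Nrm (u D s : ℕ → ℤ) (nx : ℕ → ℕ) (N : ℤ) (k : ℕ) : Prop :=
  2 * s k * u k + u (nx k) = N * D k ∧ 1 ≤ D k ∧ D k ≤ s k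

theorem bound_alt {m : ℕ} {u D s : ℕ → ℤ} {nx : ℕ → ℕ} {N G : ℤ} (hN : 0 < N)
    (hnx : ∀ k < m, nx k < m) (hs : ∀ k < m, 1 ≤ s k) (hG : ∀ k < m, 2 * s k ≤ G)
    (hyp : ∀ k < m, Nrm u D s nx N k ∨
      (2 * s k * u k - u (nx k) = N * D k ∧ 0 ≤ D k ∧ D k ≤ s k - 1 ∧ Nrm u D s nx N (nx k))) :
    ∀ k < m, N ≤ 2 * G ^ 2 * u k ∧ 2 * G ^ 3 * u k ≤ (G ^ 3 - 1) * N := by
  intro k hk
  have hm : (Finset.range m).Nonempty := ⟨k, Finset.mem_range.2 hk⟩
  obtain ⟨i, hi, hmax⟩ := Finset.exists_max_image (Finset.range m) u hm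
  obtain ⟨j, hj, hmin⟩ := Finset.exists_min_image (Finset.range m) u hm
  rw [Finset.mem_range] at hi hj
  have hG2 : 2 ≤ G := by
    have := hs k hk
    have := hG k hk
    linarith
  -- the minimum is nonnegative
  have hj0 : 0 ≤ u j := by
    by_contra hneg
    push Not at hneg
    have hsj := hs j hj
    have hsi := hs i hi
    have hmi : u j ≤ u (nx i) := hmin _ (Finset.mem_range.2 (hnx i hi))
    have hMj : u (nx j) ≤ u i := hmax _ (Finset.mem_range.2 (hnx j hj))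
    have hmj : u j ≤ u (nx j) := hmin _ (Finset.mem_range.2 (hnx j hj))
    have hMi : u (nx i) ≤ u i := hmax _ (Finset.mem_range.2 (hnx i hi))
    rcases hyp j hj with ⟨h1, h2, -⟩ | ⟨h1, h2, -, -⟩
    · have h3 : N ≤ N * D j := le_mul_of_one_le_right hN.le h2
      have h4 : N - u i ≤ 2 * s j * u j := by linarith
      have h5 : 2 * s j * u j ≤ 2 * u j := by nlinarith
      have h6 : N < u i := by nlinarith
      rcases hyp i hi with ⟨g1, -, g3⟩ | ⟨g1, -, g3, -⟩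
      · have g4 : N * D i ≤ N * s i := mul_le_mul_of_nonneg_left g3 hN.le
        have g5 : 2 * s i * u i ≤ N * s i - u j := by linarith
        have g6 : 2 * (2 * s i * u i) ≤ 2 * (N * s i) + (u i - N) := by linarith
        nlinarith
      · have g4 : N * D i ≤ N * (s i - 1) := mul_le_mul_of_nonneg_left g3 hN.le
        have g5 : 2 * s i * u i ≤ N * (s i - 1) + u i := by linarith
        nlinarith
    · have h3 : 0 ≤ N * D j := mul_nonneg hN.le h2
      have h4 : u j ≤ 2 * s j * u j := by linarith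
      nlinarith
  have hnonneg : ∀ l < m, 0 ≤ u l := fun l hl => hj0.trans (hmin _ (Finset.mem_range.2 hl))
  -- the maximum is at most `N / 2`
  have hi2 : 2 * u i ≤ N := by
    have hsi := hs i hi
    have hMi : u (nx i) ≤ u i := hmax _ (Finset.mem_range.2 (hnx i hi))
    have hni := hnonneg _ (hnx i hi)
    rcases hyp i hi with ⟨g1, -, g3⟩ | ⟨g1, -, g3, -⟩
    · have g4 : N * D i ≤ N * s i := mul_le_mul_of_nonneg_left g3 hN.le
      have g5 : s i * (2 * u i) ≤ s i * N := by linarith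
      exact le_of_mul_le_mul_left g5 (by linarith)
    · have g4 : N * D i ≤ N * (s i - 1) := mul_le_mul_of_nonneg_left g3 hN.le
      have g5 : 2 * s i * u i ≤ N * (s i - 1) + u i := by linarith
      by_contra hc
      push Not at hc
      nlinarith
  have hle : ∀ l < m, 2 * u l ≤ N := fun l hl => by
    have := hmax _ (Finset.mem_range.2 hl)
    linarith
  -- lower bounds
  have hlow1 : ∀ l < m, Nrm u D s nx N l → N ≤ 2 * G * u l := by
    rintro l hl ⟨h1, h2, -⟩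
    have h3 : N ≤ N * D l := le_mul_of_one_le_right hN.le h2
    have h4 := hle _ (hnx l hl)
    have h5 : N ≤ 2 * (2 * s l * u l) := by linarith
    have h6 : 2 * s l * u l ≤ G * u l := mul_le_mul_of_nonneg_right (hG l hl) (hnonneg l hl)
    linarith
  have hGG : G ≤ G ^ 2 := by nlinarith
  have hlow : ∀ l < m, N ≤ 2 * G ^ 2 * u l := by
    intro l hl
    rcases hyp l hl with h | ⟨h1, h2, h3, h4⟩
    · have h5 := hlow1 l hl h
      have h6 : G * u l ≤ G ^ 2 * u l := mul_le_mul_of_nonneg_right hGG (hnonneg l hl)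
      linarith
    · have h5 := hlow1 _ (hnx l hl) h4
      have h6 : 0 ≤ N * D l := mul_nonneg hN.le h2
      have h7 : u (nx l) ≤ 2 * s l * u l := by linarith
      have h8 : 2 * s l * u l ≤ G * u l := mul_le_mul_of_nonneg_right (hG l hl) (hnonneg l hl)
      have h9 : 2 * G * u (nx l) ≤ 2 * G * (G * u l) :=
        mul_le_mul_of_nonneg_left (by linarith) (by linarith)
      nlinarith
  refine ⟨hlow k hk, ?_⟩
  have hsk := hs k hk
  have hGk := hG k hk
  rcases hyp k hk with ⟨h1, -, h3⟩ | ⟨h1, -, h3, -⟩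
  · have h4 : N * D k ≤ N * s k := mul_le_mul_of_nonneg_left h3 hN.le
    have h5 := hlow _ (hnx k hk)
    have h6 : 2 * s k * u k ≤ N * s k - u (nx k) := by linarith
    have h7 : 2 * G ^ 2 * (2 * s k * u k) ≤ 2 * G ^ 2 * (N * s k) - N := by
      have : 2 * G ^ 2 * (2 * s k * u k) ≤ 2 * G ^ 2 * (N * s k - u (nx k)) :=
        mul_le_mul_of_nonneg_left h6 (by positivity)
      linarith
    have h8 : s k * (2 * G ^ 3 * u k) ≤ s k * ((G ^ 3 - 1) * N) := by
      have h9 : G * (2 * G ^ 2 * (2 * s k * u k)) ≤ G * (2 * G ^ 2 * (N * s k) - N) :=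
        mul_le_mul_of_nonneg_left h7 (by linarith)
      have h10 : 2 * s k * N ≤ G * N := mul_le_mul_of_nonneg_right hGk hN.le
      nlinarith
    exact le_of_mul_le_mul_left h8 (by linarith)
  · have h4 : N * D k ≤ N * (s k - 1) := mul_le_mul_of_nonneg_left h3 hN.le
    have h5 := hle _ (hnx k hk)
    have h6 : 2 * (2 * s k * u k) ≤ 2 * (N * s k) - N := by linarith
    have hG3 : (0 : ℤ) ≤ G ^ 3 := by positivity
    have hGG3 : G ≤ G ^ 3 := by nlinarith
    have h8 : s k * (2 * G ^ 3 * u k) ≤ s k * ((G ^ 3 - 1) * N) := by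
      have h9 : G ^ 3 * (2 * (2 * s k * u k)) ≤ G ^ 3 * (2 * (N * s k) - N) :=
        mul_le_mul_of_nonneg_left h6 hG3
      have h10 : 2 * s k * N ≤ G * N := mul_le_mul_of_nonneg_right hGk hN.le
      have h11 : G * N ≤ G ^ 3 * N := mul_le_mul_of_nonneg_right hGG3 hN.le
      nlinarith
    exact le_of_mul_le_mul_left h8 (by linarith)

end Pool.Agent.Hhelper71.Dbl
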