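import Pool.Agent.Hhelper71.Mult.Digits

/-!
# A large set of residues for a cycle of even multipliers
-/

namespace Pool.Agent.Hhelper71.Dbl

theorem set_of_digits {m : ℕ} {g : ℕ → ℤ} {G N : ℕ} [NeZero N] (hG : 0 < G) {κ : Type*}
    [DecidableEq κ] (Idx : Finset κ) (dig : κ → ℕ → ℤ)
    (H : ∀ i ∈ Idx, ∀ j ∈ Idx, i ≠ j →
      (∀ k < m, 2 * (G : ℤ) ^ 3 * |vv g (fun l => dig i l - dig j l) m N k| ≤ ((G : ℤ) ^ 3 - 1) * N) ∧
      ¬ (N : ℤ) ∣ vv g (fun l => dig i l - dig j l) m N 0) :
    ∃ W : Finset (ZMod N), W.card = Idx.card ∧ ∀ k < m, ∃ L : ℤ,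
      Osc W (fun w => ((cc g k : ℤ) : ZMod N) * w) L ∧ 2 * (G : ℤ) ^ 3 * L ≤ ((G : ℤ) ^ 3 - 1) * N := by
  classical
  set φ : κ → ZMod N := fun i => ((vv g (dig i) m N 0 : ℤ) : ZMod N) with hφ
  have hinj : Set.InjOn φ Idx := by
    intro i hi j hj hij
    by_contra hne
    apply (H i hi j hj hne).2
    rw [vv_sub, ← ZMod.intCast_zmod_eq_zero_iff_dvd]
    push_cast
    rw [sub_eq_zero]
    exact hij
  refine ⟨Idx.image φ, Finset.card_image_of_injOn hinj, fun k hk => ?_⟩
  have hG3 : (0 : ℤ) < 2 * (G : ℤ) ^ 3 := by positivity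
  have hN0 : (0 : ℤ) < N := by exact_mod_cast NeZero.pos N
  have hG1 : (1 : ℤ) ≤ (G : ℤ) ^ 3 := one_le_pow₀ (by exact_mod_cast hG)
  set L : ℤ := (((G : ℤ) ^ 3 - 1) * N) / (2 * (G : ℤ) ^ 3) with hL
  have hL0 : 0 ≤ L := Int.ediv_nonneg (mul_nonneg (by linarith) hN0.le) hG3.le
  have hL1 : 2 * (G : ℤ) ^ 3 * L ≤ ((G : ℤ) ^ 3 - 1) * N := Int.mul_ediv_self_le hG3.ne'
  have key : ∀ w : ZMod N, ∃ v : ℤ, w ∈ Idx.image φ →
      ∃ i ∈ Idx, φ i = w ∧ v = vv g (dig i) m N k := by
    intro w
    by_cases hw : w ∈ Idx.image φ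
    · obtain ⟨i, hi, hiw⟩ := Finset.mem_image.1 hw
      exact ⟨_, fun _ => ⟨i, hi, hiw, rfl⟩⟩
    · exact ⟨0, fun h => (hw h).elim⟩
  choose v hv using key
  refine ⟨L, ⟨v, fun w hw => ?_, fun w hw w' hw' => ?_⟩, hL1⟩
  · obtain ⟨i, hi, hiw, hvi⟩ := hv w hw
    rw [hvi, ← hiw, hφ]
    have h1 := vv_mod g (dig i) m N k
    rw [← ZMod.intCast_zmod_eq_zero_iff_dvd] at h1
    push_cast at h1
    exact sub_eq_zero.1 h1
  · obtain ⟨i, hi, hiw, hvi⟩ := hv w hw
    obtain ⟨j, hj, hjw, hvj⟩ := hv w' hw'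
    rw [hvi, hvj]
    by_cases hij : i = j
    · rw [hij, sub_self]
      exact hL0
    · have h1 := (H i hi j hj hij).1 k hk
      rw [vv_sub] at h1
      have h2 : vv g (dig i) m N k - vv g (dig j) m N k ≤
          |vv g (dig i) m N k - vv g (dig j) m N k| := le_abs_self _
      have h3 : |vv g (dig i) m N k - vv g (dig j) m N k| ≤ L := by
        rw [hL, Int.le_ediv_iff_mul_le hG3]
        linarith
      linarith

theorem eq_zero_of_small {N G : ℤ} (hN : 0 < N) (hG : 0 < G) {x : ℤ} (h1 : 2 * G * |x| ≤ (G - 1) * N)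
    (h2 : N ∣ x) : x = 0 := by
  refine Int.eq_zero_of_abs_lt_dvd h2 ?_
  by_contra hc
  push Not at hc
  nlinarith

theorem even_set {m : ℕ} (hm : 0 < m) {s : ℕ → ℕ} {G : ℕ} (hs : ∀ k < m, 1 ≤ s k)
    (hG : ∀ k < m, 2 * s k ≤ G) {δ : ℤ} (hδ : δ = 1 ∨ δ = -1) {N : ℕ} [NeZero N]
    (hN : (N : ℤ) = cc (fun k => 2 * (s k : ℤ)) m - δ) :
    ∃ W : Finset (ZMod N), N ≤ 2 ^ m * W.card ∧ ∀ k < m, ∃ L : ℤ,
      Osc W (fun w => ((cc (fun k => 2 * (s k : ℤ)) k : ℤ) : ZMod N) * w) L ∧
      2 * (G : ℤ) ^ 3 * L ≤ ((G : ℤ) ^ 3 - 1) * N := by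
  classical
  set g : ℕ → ℤ := fun k => 2 * (s k : ℤ) with hg
  have hN0 : (0 : ℤ) < N := by exact_mod_cast NeZero.pos N
  have hG2 : 2 ≤ G := by
    have := hs 0 hm
    have := hG 0 hm
    omega
  have hG0 : (0 : ℤ) < G := by exact_mod_cast (by omega : 0 < G)
  have hGz : ∀ k < m, 2 * (s k : ℤ) ≤ G := fun k hk => by exact_mod_cast hG k hk
  have hsz : ∀ k < m, (1 : ℤ) ≤ s k := fun k hk => by exact_mod_cast hs k hk
  set dig : Option (Fin m → ℕ) → ℕ → ℤ := fun i k => i.elim
    (if k % 2 = 0 then (s k : ℤ) else if k + 1 = m then 0 else -1)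
    (fun r => if h : k < m then ((r ⟨k, h⟩ : ℕ) : ℤ) else 0) with hdig
  set D0 : Finset (Fin m → ℕ) := Fintype.piFinset (fun k : Fin m => Finset.range (s k)) with hD0
  have hdig1 : ∀ r : Fin m → ℕ, ∀ k (hk : k < m), dig (some r) k = (r ⟨k, hk⟩ : ℕ) := by
    intro r k hk
    simp [hdig, hk]
  have hr : ∀ r ∈ D0, ∀ k (hk : k < m), 0 ≤ dig (some r) k ∧ dig (some r) k ≤ (s k : ℤ) - 1 := by
    intro r hr k hk
    have h1 := Finset.mem_range.1 ((Fintype.mem_piFinset.1 hr) ⟨k, hk⟩)
    rw [hdig1 r k hk]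
    dsimp only at h1
    omega
  have hlast : ∀ ρ : ℕ → ℤ, vv g ρ m N m = δ * vv g ρ m N 0 := fun ρ => vv_last hN
  -- two elements of the box
  have hS1 : ∀ r ∈ D0, ∀ r' ∈ D0, r ≠ r' →
      (∀ k < m, 2 * (G : ℤ) * |vv g (fun l => dig (some r) l - dig (some r') l) m N k| ≤
        ((G : ℤ) - 1) * N) ∧
      ¬ (N : ℤ) ∣ vv g (fun l => dig (some r) l - dig (some r') l) m N 0 := by
    intro r hr1 r' hr2 hne
    set d : ℕ → ℤ := fun l => dig (some r) l - dig (some r') l with hd
    have hb := bound_small (v := fun k => vv g d m N k) (d := d) (s := fun k => (s k : ℤ))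
      hN0 hsz hGz (fun k hk => by
        have h1 := hr r hr1 k hk
        have h2 := hr r' hr2 k hk
        rw [hd, abs_le]
        dsimp only
        constructor <;> linarith) (fun k _ => vv_succ g d m N k) (by
        rw [hlast]
        rcases hδ with rfl | rfl <;> simp)
    refine ⟨hb, fun hdvd => hne ?_⟩
    have h0 : ∀ k < m, vv g d m N k = 0 := by
      have h00 := eq_zero_of_small hN0 hG0 (hb 0 hm) hdvd
      intro k hk
      refine eq_zero_of_small hN0 hG0 (hb k hk) ?_
      have h1 := vv_mod g d m N k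
      rw [h00, mul_zero, sub_zero] at h1
      exact h1
    have h0' : ∀ k ≤ m, vv g d m N k = 0 := by
      intro k hk
      rcases lt_or_eq_of_le hk with h | h
      · exact h0 k h
      · rw [h, hlast, h0 0 hm, mul_zero]
    funext ⟨k, hk⟩
    have h1 := vv_succ g d m N k
    rw [h0' k hk.le, h0' (k + 1) hk, mul_zero, add_zero] at h1
    have h2 : d k = 0 := by
      rcases mul_eq_zero.1 h1.symm with h | h
      · exact absurd h hN0.ne'
      · exact h
    rw [hd] at h2
    dsimp only at h2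
    rw [hdig1 r k hk, hdig1 r' k hk] at h2
    omega
  -- the extra element and the box
  have hS2 : δ = -1 → ∀ r ∈ D0,
      (∀ k < m, 2 * (G : ℤ) ^ 3 * |vv g (fun l => dig none l - dig (some r) l) m N k| ≤
        ((G : ℤ) ^ 3 - 1) * N) ∧
      ¬ (N : ℤ) ∣ vv g (fun l => dig none l - dig (some r) l) m N 0 := by
    intro hδ1 r hr1
    set d : ℕ → ℤ := fun l => dig none l - dig (some r) l with hd
    set u : ℕ → ℤ := fun k => (-1) ^ k * vv g d m N k with hu
    set D : ℕ → ℤ := fun k => (-1) ^ k * d k with hD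
    set nx : ℕ → ℕ := fun k => if k + 1 < m then k + 1 else 0 with hnx
    have hnone : ∀ k, dig none k =
        if k % 2 = 0 then (s k : ℤ) else if k + 1 = m then 0 else -1 := fun k => rfl
    have hpow : ∀ k, (-1 : ℤ) ^ k = if k % 2 = 0 then 1 else -1 := by
      intro k
      split_ifs with h
      · exact (Nat.even_iff.2 h).neg_one_pow
      · exact (Nat.odd_iff.2 (by omega)).neg_one_pow
    have hsucc : ∀ k, (-1 : ℤ) ^ (k + 1) = -(-1) ^ k := fun k => by rw [pow_succ]; ring
    have hnrm : ∀ k < m, (k % 2 = 0 ∨ k + 1 ≠ m) → Nrm u D (fun k => (s k : ℤ)) nx N k := by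
      intro k hk hkk
      have h1 := hr r hr1 k hk
      have h2 := vv_succ g d m N k
      refine ⟨?_, ?_, ?_⟩
      · rw [hnx, hu, hD]
        dsimp only
        by_cases hk1 : k + 1 < m
        · rw [if_pos hk1, hsucc]
          have h3 : g k = 2 * (s k : ℤ) := rfl
          rw [h3] at h2
          linear_combination (-1) ^ k * h2
        · have hkm : k + 1 = m := by omega
          have hk0 : k % 2 = 0 := by
            rcases hkk with h | h
            · exact h
            · exact absurd hkm h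
          rw [if_neg hk1, hpow k, if_pos hk0, pow_zero]
          rw [hkm, hlast, hδ1] at h2
          have h3 : g k = 2 * (s k : ℤ) := rfl
          rw [h3] at h2
          linear_combination h2
      · rw [hD, hd]
        dsimp only
        rw [hpow, hnone]
        split_ifs with h3 h4
        · linarith
        · exfalso
          rcases hkk with h | h
          · exact h3 h
          · exact h h4
        · linarith
      · rw [hD, hd]
        dsimp only
        rw [hpow, hnone]
        split_ifs with h3 h4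
        · linarith
        · exfalso
          rcases hkk with h | h
          · exact h3 h
          · exact h h4
        · linarith
    have hb := bound_alt (u := u) (D := D) (s := fun k => (s k : ℤ)) (nx := nx) (m := m) hN0
      (fun k hk => by
        rw [hnx]
        dsimp only
        split_ifs with h
        · exact h
        · exact hm) hsz hGz (fun k hk => by
        by_cases hkk : k % 2 = 0 ∨ k + 1 ≠ m
        · exact Or.inl (hnrm k hk hkk)
        · right
          push Not at hkk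
          obtain ⟨hk1, hk2⟩ := hkk
          have h1 := hr r hr1 k hk
          have h2 := vv_succ g d m N k
          have hnk : nx k = 0 := by
            rw [hnx]
            dsimp only
            rw [if_neg (by omega)]
          rw [hnk]
          refine ⟨?_, ?_, ?_, hnrm 0 hm (Or.inl rfl)⟩
          · rw [hu, hD]
            dsimp only
            rw [hpow k, if_neg hk1, pow_zero]
            rw [hk2, hlast, hδ1] at h2
            have h3 : g k = 2 * (s k : ℤ) := rfl
            rw [h3] at h2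
            linear_combination -h2
          · rw [hD, hd]
            dsimp only
            rw [hpow, hnone, if_neg hk1, if_neg hk1, if_pos hk2]
            linarith
          · rw [hD, hd]
            dsimp only
            rw [hpow, hnone, if_neg hk1, if_neg hk1, if_pos hk2]
            linarith)
    have hG3 : (0 : ℤ) < (G : ℤ) ^ 3 := by positivity
    have hupos : ∀ k < m, 0 < u k := by
      intro k hk
      by_contra hc
      push Not at hc
      have h1 := (hb k hk).1
      have h2 : 2 * (G : ℤ) ^ 2 * u k ≤ 0 := mul_nonpos_of_nonneg_of_nonpos (by positivity) hc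
      linarith
    have habs : ∀ k < m, |vv g d m N k| = u k := by
      intro k hk
      have h1 : |u k| = |vv g d m N k| := by
        rw [hu]
        dsimp only
        rw [abs_mul, abs_pow, abs_neg, abs_one, one_pow, one_mul]
      rw [← h1, abs_of_pos (hupos k hk)]
    refine ⟨fun k hk => by rw [habs k hk]; exact (hb k hk).2, fun hdvd => ?_⟩
    have h1 : |vv g d m N 0| < N := by
      rw [habs 0 hm]
      by_contra hc
      push Not at hc
      have h2 := (hb 0 hm).2
      nlinarith
    have h2 := Int.eq_zero_of_abs_lt_dvd hdvd h1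
    have h3 := hupos 0 hm
    rw [← habs 0 hm, h2, abs_zero] at h3
    exact lt_irrefl _ h3
  -- cardinalities
  have hcD : D0.card = ∏ k ∈ Finset.range m, s k := by
    rw [hD0, Fintype.card_piFinset]
    simp only [Finset.card_range]
    rw [Finset.prod_range]
  have hcc : ∀ k, cc g k = ((2 ^ k * ∏ i ∈ Finset.range k, s i : ℕ) : ℤ) := by
    intro k
    induction k with
    | zero => simp [cc]
    | succ k ih =>
      rw [cc, ih, Finset.prod_range_succ, pow_succ]
      push_cast
      ring
  have hG31 : ∀ x : ℤ, 2 * (G : ℤ) * |x| ≤ ((G : ℤ) - 1) * N →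
      2 * (G : ℤ) ^ 3 * |x| ≤ ((G : ℤ) ^ 3 - 1) * N := by
    intro x hx
    have h1 : (G : ℤ) ^ 2 * (2 * (G : ℤ) * |x|) ≤ (G : ℤ) ^ 2 * (((G : ℤ) - 1) * N) :=
      mul_le_mul_of_nonneg_left hx (by positivity)
    have h2 : (1 : ℤ) ≤ (G : ℤ) ^ 2 := one_le_pow₀ (by linarith)
    nlinarith
  rcases hδ with hδ1 | hδ1
  · obtain ⟨W, hW1, hW2⟩ := set_of_digits (m := m) (g := g) (G := G) (N := N) (by omega)
      (D0.map Function.Embedding.some) dig (by
        intro i hi j hj hij
        obtain ⟨r, hr1, rfl⟩ := Finset.mem_map.1 hi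
        obtain ⟨r', hr2, rfl⟩ := Finset.mem_map.1 hj
        obtain ⟨h1, h2⟩ := hS1 r hr1 r' hr2 (fun h => hij (by rw [h]))
        exact ⟨fun k hk => hG31 _ (h1 k hk), h2⟩)
    refine ⟨W, ?_, hW2⟩
    rw [hW1, Finset.card_map, hcD]
    have h1 : (N : ℤ) ≤ ((2 ^ m * ∏ i ∈ Finset.range m, s i : ℕ) : ℤ) := by
      rw [← hcc, hN, hδ1]
      linarith
    exact_mod_cast h1
  · obtain ⟨W, hW1, hW2⟩ := set_of_digits (m := m) (g := g) (G := G) (N := N) (by omega)
      (Finset.insertNone D0) dig (by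
        intro i hi j hj hij
        rcases i with _ | r <;> rcases j with _ | r'
        · exact absurd rfl hij
        · exact hS2 hδ1 r' (Finset.some_mem_insertNone.1 hj)
        · obtain ⟨h1, h2⟩ := hS2 hδ1 r (Finset.some_mem_insertNone.1 hi)
          have hneg : ∀ k, vv g (fun l => dig (some r) l - dig none l) m N k =
              -vv g (fun l => dig none l - dig (some r) l) m N k := by
            intro k
            rw [vv_sub, vv_sub]
            ring
          refine ⟨fun k hk => ?_, ?_⟩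
          · rw [hneg, abs_neg]
            exact h1 k hk
          · rw [hneg, dvd_neg]
            exact h2
        · obtain ⟨h1, h2⟩ := hS1 r (Finset.some_mem_insertNone.1 hi) r'
            (Finset.some_mem_insertNone.1 hj) (fun h => hij (by rw [h]))
          exact ⟨fun k hk => hG31 _ (h1 k hk), h2⟩)
    refine ⟨W, ?_, hW2⟩
    rw [hW1, Finset.card_insertNone, hcD]
    have h1 : (N : ℤ) ≤ ((2 ^ m * ((∏ i ∈ Finset.range m, s i) + 1) : ℕ) : ℤ) := by
      have h2 : (1 : ℤ) ≤ 2 ^ m := one_le_pow₀ (by norm_num)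
      rw [hN, hcc, hδ1]
      push_cast
      linarith
    exact_mod_cast h1

end Pool.Agent.Hhelper71.Dbl
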