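import Pool.Agent.Hhelper71.Dbl.Core

/-!
# From sets of residues modulo `N` to sets of code words
-/

namespace Pool.Agent.Hhelper71.Dbl

variable {a : ℕ} {X : Type*}

theorem transfer [NeZero a] {N : ℕ} [NeZero N] {b : ℕ} (T : Finset X) (y : X → ZMod a)
    (hy : ∀ s ∈ T, ∀ t ∈ T, (N : ZMod a) * (y s - y t) = 0) (W : Finset (ZMod N)) :
    ∃ T' ⊆ T, T.card * W.card ≤ N * T'.card ∧ ∀ c L : ℤ,
      Osc W (fun w => (c : ZMod N) * w) L → (a : ℤ) * L < b * N → ∀ δ : ℤ, (δ = 1 ∨ δ = -1) →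
      ∀ x : X → ZMod a,
        (∀ s ∈ T', ∀ t ∈ T', x s - x t = (δ : ZMod a) * ((c : ZMod a) * (y s - y t))) →
        Osc T' x ((b : ℤ) - 1) := by
  classical
  rcases T.eq_empty_or_nonempty with rfl | ⟨t0, ht0⟩
  · exact ⟨∅, subset_rfl, by simp, fun _ _ _ _ _ _ _ _ => ⟨fun _ => 0, by simp, by simp⟩⟩
  have key : ∀ t, ∃ u : ℤ, t ∈ T → (N : ℤ) * ((y t - y t0).val : ℤ) = a * u := by
    intro t
    by_cases ht : t ∈ T
    swap
    · exact ⟨0, fun h => (ht h).elim⟩
    have h1 : (((N : ℤ) * ((y t - y t0).val : ℤ) : ℤ) : ZMod a) = 0 := by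
      push_cast
      rw [ZMod.natCast_zmod_val]
      exact hy t ht t0 ht0
    rw [ZMod.intCast_zmod_eq_zero_iff_dvd] at h1
    obtain ⟨u, hu⟩ := h1
    exact ⟨u, fun _ => hu⟩
  choose u hu using key
  obtain ⟨θ, hθ⟩ := translates (⊤ : AddSubgroup (ZMod N)) W (fun _ _ => AddSubgroup.mem_top _) T
    (fun t => (u t : ZMod N)) (fun _ _ => AddSubgroup.mem_top _)
  have hcN : Nat.card (⊤ : AddSubgroup (ZMod N)) = N := by
    rw [AddSubgroup.card_top, Nat.card_zmod]
  rw [hcN] at hθ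
  refine ⟨T.filter (fun t => (u t : ZMod N) - θ ∈ W), Finset.filter_subset _ _, hθ, ?_⟩
  intro c L hosc hL δ hδ x hx
  obtain ⟨v, hv1, hv2⟩ := hosc
  have key2 : ∀ t, ∃ k : ℤ, (u t : ZMod N) - θ ∈ W →
      v ((u t : ZMod N) - θ) + c * (θ.val : ℤ) - c * u t = N * k := by
    intro t
    by_cases ht : (u t : ZMod N) - θ ∈ W
    swap
    · exact ⟨0, fun h => (ht h).elim⟩
    have h1 : ((v ((u t : ZMod N) - θ) + c * (θ.val : ℤ) - c * u t : ℤ) : ZMod N) = 0 := by
      push_cast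
      rw [ZMod.natCast_zmod_val, hv1 _ ht]
      ring
    rw [ZMod.intCast_zmod_eq_zero_iff_dvd] at h1
    obtain ⟨k, hk⟩ := h1
    exact ⟨k, fun _ => hk⟩
  choose k hk using key2
  set F : X → ℤ := fun t => c * ((y t - y t0).val : ℤ) + a * k t with hF
  have hFN : ∀ t ∈ T.filter (fun t => (u t : ZMod N) - θ ∈ W),
      (N : ℤ) * F t = a * (v ((u t : ZMod N) - θ) + c * (θ.val : ℤ)) := by
    intro t ht
    obtain ⟨ht1, ht2⟩ := Finset.mem_filter.1 ht
    have h1 := hu t ht1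
    have h2 := hk t ht2
    rw [hF]
    dsimp only
    linear_combination c * h1 - (a : ℤ) * h2
  have hFc : ∀ t, ((F t : ℤ) : ZMod a) = (c : ZMod a) * (y t - y t0) := by
    intro t
    rw [hF]
    push_cast
    rw [ZMod.natCast_zmod_val, ZMod.natCast_self]
    ring
  have hN0 : (0 : ℤ) < N := by exact_mod_cast NeZero.pos N
  have hdiff : ∀ s ∈ T.filter (fun t => (u t : ZMod N) - θ ∈ W),
      ∀ t ∈ T.filter (fun t => (u t : ZMod N) - θ ∈ W), F s - F t < b := by
    intro s hs t ht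
    have h1 := hFN s hs
    have h2 := hFN t ht
    have h3 := hv2 _ (Finset.mem_filter.1 hs).2 _ (Finset.mem_filter.1 ht).2
    have ha : (0 : ℤ) ≤ a := by positivity
    have h4 : (N : ℤ) * (F s - F t) < N * b := by
      calc (N : ℤ) * (F s - F t) = a * (v ((u s : ZMod N) - θ) - v ((u t : ZMod N) - θ)) := by
            linear_combination h1 - h2
        _ ≤ a * L := mul_le_mul_of_nonneg_left h3 ha
        _ < N * b := by linarith
    exact lt_of_mul_lt_mul_left h4 hN0.le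
  rcases (T.filter (fun t => (u t : ZMod N) - θ ∈ W)).eq_empty_or_nonempty with h0 | ⟨t1, ht1⟩
  · rw [h0]
    exact ⟨fun _ => 0, by simp, by simp⟩
  refine ⟨fun t => ((x t1).val : ℤ) + δ * (F t - F t1), fun t ht => ?_, fun s hs t ht => ?_⟩
  · push_cast
    rw [ZMod.natCast_zmod_val, hFc, hFc]
    linear_combination -(hx t ht t1 ht1)
  · have h1 := hdiff s hs t ht
    have h2 := hdiff t ht s hs
    dsimp only
    rcases hδ with rfl | rfl <;> linarith

end Pool.Agent.Hhelper71.Dbl
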