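import Pool.Agent.Hhelper71.Mult.Child
import Pool.Agent.Hhelper71.Mult.Transfer

/-!
# Two coordinates of a cycle, the first one with an odd multiplier
-/

namespace Pool.Agent.Hhelper71.Dbl

theorem card_val_between {N : ℕ} [NeZero N] {l r : ℕ} (hr : r < N) :
    r + 1 - l ≤ (Finset.univ.filter (fun z : ZMod N => z.val ≤ r ∧ l ≤ z.val)).card := by
  classical
  have : (Finset.Icc l r).card = r + 1 - l := Nat.card_Icc l r
  rw [← this]
  refine Finset.card_le_card_of_injOn (fun k : ℕ => (k : ZMod N)) ?_ ?_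
  · intro k hk
    obtain ⟨h1, h2⟩ := Finset.mem_Icc.1 (Finset.mem_coe.1 hk)
    rw [Finset.mem_coe, Finset.mem_filter]
    refine ⟨Finset.mem_univ _, ?_⟩
    show ((k : ZMod N)).val ≤ r ∧ l ≤ ((k : ZMod N)).val
    rw [ZMod.val_natCast, Nat.mod_eq_of_lt (by omega)]
    exact ⟨h2, h1⟩
  · intro k hk k' hk' h
    obtain ⟨-, h2⟩ := Finset.mem_Icc.1 (Finset.mem_coe.1 hk)
    obtain ⟨-, h4⟩ := Finset.mem_Icc.1 (Finset.mem_coe.1 hk')
    have h5 : ((k : ZMod N)).val = ((k' : ZMod N)).val := congrArg ZMod.val h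
    rw [ZMod.val_natCast, ZMod.val_natCast, Nat.mod_eq_of_lt (by omega),
      Nat.mod_eq_of_lt (by omega)] at h5
    exact h5

theorem odd_pair {N : ℕ} [NeZero N] {a b s G : ℕ} (hb : 0 < b) (hab : 2 * b ≤ a) (hs : 0 < s)
    (hG : 2 * s + 1 ≤ G) (hgap : (G : ℤ) ^ 3 * ((a : ℤ) - 2 * b) < a) {κ : ZMod N}
    (hκ : κ * ((2 * s + 1 : ℕ) : ZMod N) = 1) :
    ∃ W : Finset (ZMod N), N ≤ 4 * W.card ∧ ∃ L : ℤ, (a : ℤ) * L < b * N ∧
      Osc W (fun w => w) L ∧ Osc W (fun w => κ * w) L := by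
  classical
  have hN : 0 < N := NeZero.pos N
  have ha : 0 < a := by omega
  have hbN : 0 < b * N := Nat.mul_pos hb hN
  obtain ⟨L, hL1, hL2⟩ : ∃ L : ℕ, a * L < b * N ∧ b * N ≤ a * (L + 1) := by
    refine ⟨(b * N - 1) / a, ?_, ?_⟩
    · have := Nat.mul_div_le (b * N - 1) a
      omega
    · have := Nat.lt_mul_div_succ (b * N - 1) ha
      omega
  have hL3 : 2 * L < N := by
    by_contra h
    push Not at h
    have h1 : a * N ≤ a * (2 * L) := Nat.mul_le_mul_left _ h
    have h2 : 2 * b * N ≤ a * N := Nat.mul_le_mul_right _ hab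
    nlinarith
  -- integer versions
  set g : ℤ := 2 * (s : ℤ) + 1 with hg
  have hs1 : (1 : ℤ) ≤ s := by exact_mod_cast hs
  have hGz : g ≤ (G : ℤ) := by rw [hg]; exact_mod_cast hG
  have hg3 : 3 ≤ g := by linarith
  have haz : (0 : ℤ) < a := by exact_mod_cast ha
  have hNz : (0 : ℤ) < N := by exact_mod_cast hN
  have habz : (0 : ℤ) ≤ (a : ℤ) - 2 * b := by
    have : (2 : ℤ) * b ≤ a := by exact_mod_cast hab
    linarith
  have hgap9 : (9 * g) * ((a : ℤ) - 2 * b) < a := by
    have h1 : 9 * g ≤ (G : ℤ) ^ 3 := by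
      have h2 : (3 : ℤ) ≤ G := by linarith
      have h3 : (9 : ℤ) ≤ (G : ℤ) ^ 2 := by nlinarith
      calc 9 * g ≤ 9 * G := by linarith
        _ ≤ (G : ℤ) ^ 2 * G := mul_le_mul_of_nonneg_right h3 (by linarith)
        _ = (G : ℤ) ^ 3 := by ring
    exact (mul_le_mul_of_nonneg_right h1 habz).trans_lt hgap
  have hL2z : (b : ℤ) * N ≤ a * ((L : ℤ) + 1) := by exact_mod_cast hL2
  have hL3z : (2 : ℤ) * L < N := by exact_mod_cast hL3
  -- the key inequality: 9 g (N - 2 b') < N
  have hkey : (9 * g) * ((N : ℤ) - 2 * ((L : ℤ) + 1)) < N := by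
    have h1 : (a : ℤ) * ((N : ℤ) - 2 * ((L : ℤ) + 1)) ≤ N * ((a : ℤ) - 2 * b) := by nlinarith
    have h2 : (a : ℤ) * ((9 * g) * ((N : ℤ) - 2 * ((L : ℤ) + 1))) < a * N := by
      calc (a : ℤ) * ((9 * g) * ((N : ℤ) - 2 * ((L : ℤ) + 1)))
          = (9 * g) * (a * ((N : ℤ) - 2 * ((L : ℤ) + 1))) := by ring
        _ ≤ (9 * g) * (N * ((a : ℤ) - 2 * b)) := mul_le_mul_of_nonneg_left h1 (by linarith)
        _ = N * ((9 * g) * ((a : ℤ) - 2 * b)) := by ring
        _ < N * a := mul_lt_mul_of_pos_left hgap9 hNz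
        _ = a * N := by ring
    exact lt_of_mul_lt_mul_left h2 haz.le
  set T0 : Finset (ZMod N) := Finset.univ.filter (fun z : ZMod N => z.val < L + 1) with hT0
  have hT0c : T0.card = L + 1 := card_val_lt (by omega)
  have hmemT : ∀ z ∈ T0, (z.val : ℤ) ≤ L := by
    intro z hz
    have := (Finset.mem_filter.1 hz).2
    omega
  obtain ⟨W, hWT, hWc, hWo⟩ := child_odd (a := N) (T := T0) (x := fun w => κ * w)
    (F := fun w => (w.val : ℤ)) (D := L) (m0 := 0) (s := s) (b := L + 1) hs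
    (fun t _ => by positivity) (fun t ht => by
      have := hmemT t ht
      linarith)
    (by
      push_cast
      nlinarith)
    (u := (2 * s + 1) * ((L + 1 : ℕ) : ℤ) - 1 - N * s) rfl
    (by
      push_cast
      nlinarith)
    (by
      intro t _ t' _
      push_cast
      rw [ZMod.natCast_zmod_val, ZMod.natCast_zmod_val]
      push_cast at hκ
      linear_combination (t - t') * hκ)
  refine ⟨W, ?_, L, by exact_mod_cast hL1, ?_, ?_⟩
  · rw [hT0c] at hWc
    set u : ℤ := (2 * s + 1) * ((L + 1 : ℕ) : ℤ) - 1 - N * s with hu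
    set mid := (T0.filter (fun t => (t.val : ℤ) ≤ 0 + u ∧ (0 : ℤ) + L - u ≤ (t.val : ℤ))).card with hmid
    have hWz : g * ((L : ℤ) + 1) + mid ≤ 2 * g * W.card := by
      have : (((2 * s + 1) * (L + 1) + mid : ℕ) : ℤ) ≤ ((2 * (2 * s + 1) * W.card : ℕ) : ℤ) := by
        exact_mod_cast hWc
      push_cast at this
      rw [hg]
      linarith
    have huz : u = g * ((L : ℤ) + 1) - 1 - N * s := by
      rw [hu, hg]
      push_cast
      ring
    have hgoal : g * N ≤ g * (4 * W.card) := by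
      rcases le_or_gt (L : ℤ) u with h | h
      · have h1 : (L : ℤ) + 1 ≤ mid := by
          have h2 : T0 ⊆ T0.filter (fun t => (t.val : ℤ) ≤ 0 + u ∧ (0 : ℤ) + L - u ≤ (t.val : ℤ)) := by
            intro z hz
            rw [Finset.mem_filter]
            have h3 := hmemT z hz
            have h4 : (0 : ℤ) ≤ (z.val : ℤ) := by positivity
            exact ⟨hz, by linarith, by linarith⟩
          have h3 := Finset.card_le_card h2
          rw [hT0c] at h3
          exact_mod_cast h3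
        nlinarith
      · have hu0 : 0 ≤ 2 * u - L + 1 := by
          rw [huz]
          nlinarith
        have hL0 : (0 : ℤ) ≤ L := by positivity
        have hupos : 0 ≤ u := by linarith
        obtain ⟨r, hr⟩ := Int.eq_ofNat_of_zero_le hupos
        obtain ⟨l, hl⟩ := Int.eq_ofNat_of_zero_le (show (0 : ℤ) ≤ L - u by linarith)
        have h1 : 2 * u - L + 1 ≤ mid := by
          have h2 := card_val_between (N := N) (l := l) (r := r) (by omega)
          have h3 : Finset.univ.filter (fun z : ZMod N => z.val ≤ r ∧ l ≤ z.val) ⊆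
              T0.filter (fun t => (t.val : ℤ) ≤ 0 + u ∧ (0 : ℤ) + L - u ≤ (t.val : ℤ)) := by
            intro z hz
            obtain ⟨-, h4, h5⟩ := Finset.mem_filter.1 hz
            rw [Finset.mem_filter, hT0, Finset.mem_filter]
            refine ⟨⟨Finset.mem_univ _, by omega⟩, by omega, by omega⟩
          have h4 := Finset.card_le_card h3
          omega
        nlinarith
    have h5 : (N : ℤ) ≤ 4 * W.card := le_of_mul_le_mul_left hgoal (by linarith)
    exact_mod_cast h5
  · refine ⟨fun w => (w.val : ℤ), fun w _ => by push_cast; exact ZMod.natCast_zmod_val w, ?_⟩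
    intro w hw w' _
    have h1 := hmemT w (hWT hw)
    have h2 : (0 : ℤ) ≤ (w'.val : ℤ) := by positivity
    dsimp only
    linarith
  · push_cast at hWo
    rw [add_sub_cancel_right] at hWo
    exact hWo

end Pool.Agent.Hhelper71.Dbl
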