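import Pool.Agent.Hhelper71.Mult.Steps
import Pool.Agent.Hhelper71.Dbl.Shannon

/-!
# Codes with a set of coordinates that is closed under bounded multipliers up to sign
-/

namespace Pool.Agent.Hhelper71.Dbl

variable {a : ℕ} {ι : Type*}

theorem iterate_rel2 {H : AddSubgroup (ι → ZMod a)} {U : Finset ι} {σ : ι → ι} {e : ι → ℤ}
    {γ : ι → ℕ}
    (he : ∀ i ∈ U, (e i = 1 ∨ e i = -1) ∧ σ i ∈ U ∧
      ∀ h ∈ H, (γ i : ZMod a) * h i = (e i : ZMod a) * h (σ i))
    {i : ι} (hi : i ∈ U) (k : ℕ) :
    σ^[k] i ∈ U ∧ ∃ δ : ℤ, (δ = 1 ∨ δ = -1) ∧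
      ∀ h ∈ H, h (σ^[k] i) =
        (δ : ZMod a) * (((cc (fun l => (γ (σ^[l] i) : ℤ)) k : ℤ) : ZMod a) * h i) := by
  induction k with
  | zero => exact ⟨hi, 1, Or.inl rfl, fun h _ => by simp [cc]⟩
  | succ k ih =>
    obtain ⟨h1, δ, hδ, h2⟩ := ih
    obtain ⟨h3, h4, h5⟩ := he _ h1
    rw [Function.iterate_succ_apply']
    refine ⟨h4, e (σ^[k] i) * δ, ?_, fun h hh => ?_⟩
    · rcases h3 with h3 | h3 <;> rcases hδ with h6 | h6 <;> rw [h3, h6] <;> simp
    · have h6 := h5 h hh
      rw [h2 h hh] at h6
      rw [cc]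
      rcases h3 with h3 | h3
      · rw [h3] at h6 ⊢
        push_cast at h6 ⊢
        linear_combination -h6
      · rw [h3] at h6 ⊢
        push_cast at h6 ⊢
        linear_combination h6

theorem cc_pos {g : ℕ → ℤ} {m : ℕ} (hg : ∀ k < m, 2 ≤ g k) : ∀ k ≤ m, (2 : ℤ) ^ k ≤ cc g k := by
  intro k
  induction k with
  | zero => simp [cc]
  | succ k ih =>
    intro hk
    have h1 := ih (by omega)
    have h2 := hg k (by omega)
    rw [cc, pow_succ]
    have h3 : (0 : ℤ) < 2 ^ k := by positivity
    nlinarith

theorem cc_dvd {g : ℕ → ℤ} {m : ℕ} (hm : 0 < m) : g 0 ∣ cc g m := by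
  induction m with
  | zero => exact absurd hm (lt_irrefl 0)
  | succ m ih =>
    rcases Nat.eq_zero_or_pos m with rfl | h
    · simp [cc]
    · rw [cc]
      exact (ih h).mul_left _

variable [Fintype ι] [DecidableEq ι]

theorem process2 [NeZero a] {b G : ℕ} (hb : 0 < b) (hab : 2 * b ≤ a)
    (hgap : (G : ℤ) ^ 3 * ((a : ℤ) - 2 * b) < a)
    (H : AddSubgroup (ι → ZMod a))
    (R S : Finset ι) (σ : ι → ι) (e : ι → ℤ) (γ : ι → ℕ)
    (he : ∀ i ∈ R, (2 ≤ γ i ∧ γ i ≤ G) ∧ (e i = 0 ∨ e i = 1 ∨ e i = -1) ∧ σ i ∈ S ∧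
      ∀ h ∈ H, (γ i : ZMod a) * h i = (e i : ZMod a) * h (σ i))
    (N : ℕ) : ∀ (P : Finset ι) (T : Finset (ι → ZMod a)), (∀ t ∈ T, t ∈ H) → P ⊆ S →
      (∀ i ∈ S, i ∉ R → i ∈ P) → (∀ i ∈ P, Osc T (fun t => t i) ((b : ℤ) - 1)) →
      (S \ P).card = N →
      ∃ T' ⊆ T, T.card ≤ 2 ^ N * T'.card ∧ ∀ i ∈ S, Osc T' (fun t => t i) ((b : ℤ) - 1) := by
  induction N using Nat.strong_induction_on with
  | _ N ih =>
    intro P T hT hPS hP hosc hN
    by_cases hPe : S \ P = ∅
    · refine ⟨T, subset_rfl, Nat.le_mul_of_pos_left _ (by positivity), fun i hiS => hosc i ?_⟩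
      by_contra hi
      have : i ∈ S \ P := Finset.mem_sdiff.2 ⟨hiS, hi⟩
      rw [hPe] at this
      exact absurd this (Finset.notMem_empty i)
    -- a step that handles a set `Y` of coordinates
    have hstepY : ∀ Y : Finset ι, Y ⊆ S \ P → Y.Nonempty →
        (∃ T1 ⊆ T, T.card ≤ 2 ^ Y.card * T1.card ∧ ∀ i ∈ Y, Osc T1 (fun t => t i) ((b : ℤ) - 1)) →
        ∃ T' ⊆ T, T.card ≤ 2 ^ N * T'.card ∧ ∀ i ∈ S, Osc T' (fun t => t i) ((b : ℤ) - 1) := by
      intro Y hY hYne hT1
      obtain ⟨T1, hT1, hc1, ho1⟩ := hT1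
      have hYpos := hYne.card_pos
      have hcard : (S \ (P ∪ Y)).card + Y.card = N := by
        have hsd : S \ (P ∪ Y) = (S \ P) \ Y := by
          ext i
          simp only [Finset.mem_sdiff, Finset.mem_union, not_or]
          tauto
        rw [hsd, Finset.card_sdiff_of_subset hY, hN]
        have := Finset.card_le_card hY
        rw [hN] at this
        omega
      obtain ⟨T2, hT2, hc2, ho2⟩ := ih (S \ (P ∪ Y)).card (by omega) (P ∪ Y) T1
        (fun t ht => hT t (hT1 ht)) (Finset.union_subset hPS (hY.trans Finset.sdiff_subset))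
        (fun j hjS hj => Finset.mem_union_left _ (hP j hjS hj)) (by
          intro j hj
          rw [Finset.mem_union] at hj
          rcases hj with hj | hj
          · exact (hosc j hj).mono hT1
          · exact ho1 j hj) rfl
      refine ⟨T2, hT2.trans hT1, ?_, ho2⟩
      calc T.card ≤ 2 ^ Y.card * T1.card := hc1
        _ ≤ 2 ^ Y.card * (2 ^ (S \ (P ∪ Y)).card * T2.card) := Nat.mul_le_mul_left _ hc2
        _ = 2 ^ N * T2.card := by rw [← mul_assoc, ← pow_add, add_comm Y.card, hcard]
    have hRof : ∀ i ∈ S \ P, i ∈ R := by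
      intro i hi
      obtain ⟨hiS, hiP⟩ := Finset.mem_sdiff.1 hi
      by_contra h
      exact hiP (hP i hiS h)
    by_cases hA : ∃ i ∈ S \ P, (e i = 0 ∨ σ i ∈ P)
    · obtain ⟨i, hiSP, hi⟩ := hA
      obtain ⟨⟨hγ1, hγ2⟩, he1, -, he2⟩ := he i (hRof i hiSP)
      refine hstepY {i} (Finset.singleton_subset_iff.2 hiSP) (Finset.singleton_nonempty i) ?_
      rw [Finset.card_singleton, pow_one]
      have hstep : ∃ T' ⊆ T, T.card ≤ 2 * T'.card ∧ Osc T' (fun t => t i) ((b : ℤ) - 1) := by
        by_cases he0 : e i = 0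
        · refine step_zero (s := γ i) (by omega) ?_ ?_
          · have hG2 : (2 : ℤ) ≤ G := by exact_mod_cast hγ1.trans hγ2
            have h4 := gap_mul (k := 1) (by norm_num) (by nlinarith) hγ2 hab hgap
            rw [one_mul] at h4
            exact h4
          · intro u hu t ht
            have h1 := he2 _ (H.sub_mem (hT u hu) (hT t ht))
            rw [he0] at h1
            simp only [Pi.sub_apply] at h1
            push_cast at h1 ⊢
            linear_combination 2 * h1
        · refine step_mult (y := fun t => t (σ i)) hb hab hγ1 hγ2 hgap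
            (hosc _ (hi.resolve_left he0)) (he1.resolve_left he0) fun u hu t ht => ?_
          exact he2 _ (H.sub_mem (hT u hu) (hT t ht))
      obtain ⟨T1, hT1, hc1, ho1⟩ := hstep
      refine ⟨T1, hT1, hc1, fun j hj => ?_⟩
      rw [Finset.mem_singleton.1 hj]
      exact ho1
    push Not at hA
    have he' : ∀ i ∈ S \ P, (e i = 1 ∨ e i = -1) ∧ σ i ∈ S \ P ∧
        ∀ h ∈ H, (γ i : ZMod a) * h i = (e i : ZMod a) * h (σ i) := by
      intro i hi
      obtain ⟨-, h1, h5, h2⟩ := he i (hRof i hi)
      obtain ⟨h3, h4⟩ := hA i hi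
      exact ⟨h1.resolve_left h3, Finset.mem_sdiff.2 ⟨h5, h4⟩, h2⟩
    have hγ : ∀ i ∈ S \ P, 2 ≤ γ i ∧ γ i ≤ G := fun i hi => (he i (hRof i hi)).1
    by_cases hodd : ∃ j ∈ S \ P, Odd (γ j) ∧ ∃ r, 0 < r ∧ Function.IsPeriodicPt σ r j
    · obtain ⟨j, hj, ⟨s, hs⟩, r, hr, hper⟩ := hodd
      obtain ⟨hγ1, hγ2⟩ := hγ j hj
      have hs0 : 0 < s := by omega
      obtain ⟨hej, hσj, hrelj⟩ := he' j hj
      by_cases hfix : σ j = j
      · -- a fixed point
        refine hstepY {j} (Finset.singleton_subset_iff.2 hj) (Finset.singleton_nonempty j) ?_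
        rw [Finset.card_singleton, pow_one]
        have hG3 : (3 : ℤ) ≤ G := by
          have : 3 ≤ G := by omega
          exact_mod_cast this
        have h4 := gap_mul (k := 9) (by norm_num) (by nlinarith) hγ2 hab hgap
        rw [hs] at h4
        push_cast at h4
        have habz : (0 : ℤ) ≤ (a : ℤ) - 2 * b := by
          have : (2 : ℤ) * b ≤ a := by exact_mod_cast hab
          linarith
        have hs1 : (1 : ℤ) ≤ s := by exact_mod_cast hs0
        have h5 : (0 : ℤ) ≤ ((s : ℤ) - 1) * ((a : ℤ) - 2 * b) := mul_nonneg (by linarith) habz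
        have hstep : ∃ T' ⊆ T, T.card ≤ 2 * T'.card ∧ Osc T' (fun t => t j) ((b : ℤ) - 1) := by
          rcases hej with hej | hej
          · refine step_zero (s := s) hs0 (by nlinarith) ?_
            intro u hu t ht
            have h1 := hrelj _ (H.sub_mem (hT u hu) (hT t ht))
            rw [hej, hs, hfix] at h1
            simp only [Pi.sub_apply] at h1
            push_cast at h1 ⊢
            linear_combination h1
          · refine step_zero (s := s + 1) (by omega) (by push_cast; nlinarith) ?_
            intro u hu t ht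
            have h1 := hrelj _ (H.sub_mem (hT u hu) (hT t ht))
            rw [hej, hs, hfix] at h1
            simp only [Pi.sub_apply] at h1
            push_cast at h1 ⊢
            linear_combination h1
        obtain ⟨T1, hT1, hc1, ho1⟩ := hstep
        refine ⟨T1, hT1, hc1, fun i hi => ?_⟩
        rw [Finset.mem_singleton.1 hi]
        exact ho1
      · -- two coordinates of a longer cycle
        set m := Function.minimalPeriod σ j with hm
        have hmpos : 0 < m := hper.minimalPeriod_pos hr
        set g : ℕ → ℤ := fun l => (γ (σ^[l] j) : ℤ) with hg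
        obtain ⟨-, δ, hδ, hrel⟩ := iterate_rel2 he' hj m
        rw [hm, Function.iterate_minimalPeriod, ← hm] at hrel
        have hg2 : ∀ k < m, 2 ≤ g k := by
          intro k _
          have h1 := (hγ _ (iterate_rel2 he' hj k).1).1
          have h2 : (2 : ℤ) ≤ (γ (σ^[k] j) : ℤ) := by exact_mod_cast h1
          exact h2
        have hNpos : 0 < cc g m - δ := by
          have h1 := cc_pos hg2 m le_rfl
          have h2 : (2 : ℤ) ≤ 2 ^ m := by
            calc (2 : ℤ) = 2 ^ 1 := by norm_num
              _ ≤ 2 ^ m := pow_le_pow_right₀ (by norm_num) hmpos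
          rcases hδ with rfl | rfl <;> linarith
        obtain ⟨M, hM⟩ := Int.eq_ofNat_of_zero_le hNpos.le
        have hMz : 0 < M := by
          rw [hM] at hNpos
          exact_mod_cast hNpos
        have hcop : Nat.Coprime (2 * s + 1) M := by
          rw [← Nat.isCoprime_iff_coprime]
          have h1 : g 0 ∣ cc g m := cc_dvd hmpos
          have h2 : g 0 = ((2 * s + 1 : ℕ) : ℤ) := by
            rw [hg]
            dsimp only
            rw [Function.iterate_zero_apply, hs]
          rw [h2] at h1
          obtain ⟨w, hw⟩ := h1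
          refine ⟨δ * w, -δ, ?_⟩
          rw [← hM, hw]
          rcases hδ with rfl | rfl <;> ring
        obtain ⟨T1, hT1, hc1, ho1, ho2⟩ := step_odd (T := T) (x := fun t => t j)
          (y := fun t => t (σ j)) hb hab hgap hs0 (by omega) hMz hcop hej (by
            intro u hu t ht
            have h1 := hrel _ (H.sub_mem (hT u hu) (hT t ht))
            simp only [Pi.sub_apply] at h1
            have h2 : ((M : ℤ) : ZMod a) = ((cc g m - δ : ℤ) : ZMod a) := by rw [hM]
            push_cast at h2
            rw [h2]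
            have hδδ : (δ : ZMod a) * δ = 1 := by
              rcases hδ with rfl | rfl <;> simp
            linear_combination (-(δ : ZMod a)) * h1 - ((cc g m : ZMod a) * (u j - t j)) * hδδ) (by
            intro u hu t ht
            have h1 := hrelj _ (H.sub_mem (hT u hu) (hT t ht))
            rw [hs] at h1
            exact h1)
        refine hstepY {j, σ j} ?_ ⟨j, Finset.mem_insert_self _ _⟩ ⟨T1, hT1, ?_, ?_⟩
        · intro i hi
          rw [Finset.mem_insert, Finset.mem_singleton] at hi
          rcases hi with rfl | rfl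
          · exact hj
          · exact hσj
        · rw [Finset.card_pair (fun h => hfix h.symm)]
          exact hc1
        · intro i hi
          rw [Finset.mem_insert, Finset.mem_singleton] at hi
          rcases hi with rfl | rfl
          · exact ho1
          · exact ho2
    · -- all multipliers of periodic points are even
      push Not at hodd
      obtain ⟨i0, hi0⟩ := Finset.nonempty_of_ne_empty hPe
      obtain ⟨p, q, hpq, hpq'⟩ := Finite.exists_ne_map_eq_of_infinite (fun k : ℕ => σ^[k] i0)
      have hper : ∃ i1 ∈ S \ P, ∃ r, 0 < r ∧ Function.IsPeriodicPt σ r i1 := by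
        rcases lt_or_gt_of_ne hpq with h | h
        · refine ⟨σ^[p] i0, (iterate_rel2 he' hi0 p).1, q - p, by omega, ?_⟩
          rw [Function.IsPeriodicPt, Function.IsFixedPt, ← Function.iterate_add_apply,
            Nat.sub_add_cancel h.le]
          exact hpq'.symm
        · refine ⟨σ^[q] i0, (iterate_rel2 he' hi0 q).1, p - q, by omega, ?_⟩
          rw [Function.IsPeriodicPt, Function.IsFixedPt, ← Function.iterate_add_apply,
            Nat.sub_add_cancel h.le]
          exact hpq'
      obtain ⟨i1, hi1, r, hr, hper⟩ := hper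
      set m := Function.minimalPeriod σ i1 with hm
      have hmpos : 0 < m := hper.minimalPeriod_pos hr
      have hev : ∀ k, ∃ s : ℕ, γ (σ^[k] i1) = 2 * s := by
        intro k
        have h1 := hodd _ (iterate_rel2 he' hi1 k).1
        by_contra h2
        have h3 : Odd (γ (σ^[k] i1)) := by
          rw [← Nat.not_even_iff_odd]
          rintro ⟨s, hs⟩
          exact h2 ⟨s, by omega⟩
        exact h1 h3 r hr (hper.apply_iterate k)
      choose s hs using hev
      have hgs : (fun l => (γ (σ^[l] i1) : ℤ)) = fun l => 2 * (s l : ℤ) := by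
        funext l
        rw [hs l]
        push_cast
        rfl
      obtain ⟨-, δ, hδ, hrel⟩ := iterate_rel2 he' hi1 m
      rw [hm, Function.iterate_minimalPeriod, ← hm, hgs] at hrel
      obtain ⟨T1, hT1, hc1, ho1⟩ := step_even (T := T) (y := fun t => t i1) (s := s) (G := G)
        (δ := δ) hab hgap hmpos
        (fun k _ => by
          have := (hγ _ (iterate_rel2 he' hi1 k).1).1
          rw [hs k] at this
          omega)
        (fun k _ => by
          have := (hγ _ (iterate_rel2 he' hi1 k).1).2
          rw [hs k] at this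
          exact this) hδ (by
          intro u hu t ht
          have h1 := hrel _ (H.sub_mem (hT u hu) (hT t ht))
          simp only [Pi.sub_apply] at h1
          have hδδ : (δ : ZMod a) * δ = 1 := by
            rcases hδ with rfl | rfl <;> simp
          push_cast
          linear_combination (-(δ : ZMod a)) * h1 -
            ((cc (fun l => 2 * (s l : ℤ)) m : ZMod a) * (u i1 - t i1)) * hδδ)
      set Y : Finset ι := (Finset.range m).image (fun k => σ^[k] i1) with hY
      have hCcard : Y.card = m := by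
        rw [hY, Finset.card_image_of_injOn, Finset.card_range]
        intro k hk l hl hkl
        exact Function.iterate_injOn_Iio_minimalPeriod
          (Finset.mem_range.1 (Finset.mem_coe.1 hk)) (Finset.mem_range.1 (Finset.mem_coe.1 hl)) hkl
      refine hstepY Y ?_ ⟨i1, Finset.mem_image.2 ⟨0, Finset.mem_range.2 hmpos, rfl⟩⟩
        ⟨T1, hT1, by rw [hCcard]; exact hc1, ?_⟩
      · intro i hi
        obtain ⟨k, _, rfl⟩ := Finset.mem_image.1 hi
        exact (iterate_rel2 he' hi1 k).1
      · intro i hi
        obtain ⟨k, hk, rfl⟩ := Finset.mem_image.1 hi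
        obtain ⟨-, δ', hδ', hrel'⟩ := iterate_rel2 he' hi1 k
        rw [hgs] at hrel'
        refine ho1 k (Finset.mem_range.1 hk) δ' hδ' _ fun u hu t ht => ?_
        exact hrel' _ (H.sub_mem (hT u (hT1 hu)) (hT t (hT1 ht)))

end Pool.Agent.Hhelper71.Dbl
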