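import Pool.Agent.Hhelper71.Mult.EvenSet
import Pool.Agent.Hhelper71.Mult.OddPair

/-!
# The steps of the process for bounded multipliers
-/

namespace Pool.Agent.Hhelper71.Dbl

variable {a : ℕ} {X : Type*}

theorem step_zero [NeZero a] {T : Finset X} {x : X → ZMod a} {s b : ℕ}
    (hs : 0 < s) (hcond : (s : ℤ) * ((a : ℤ) - 2 * b) < a)
    (hrel : ∀ u ∈ T, ∀ t ∈ T, ((2 * s : ℕ) : ZMod a) * (x u - x t) = 0) :
    ∃ T' ⊆ T, T.card ≤ 2 * T'.card ∧ Osc T' x ((b : ℤ) - 1) := by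
  refine child_even (F := fun _ => 0) (D := 0) hs (fun _ _ _ _ => by simp) (by nlinarith) ?_
  intro u hu t ht
  rw [hrel u hu t ht]
  simp

theorem gap_mul {a b g G : ℕ} {k : ℤ} (hk : 0 ≤ k) (hkG : k ≤ (G : ℤ) ^ 2) (hg : g ≤ G)
    (hab : 2 * b ≤ a) (hgap : (G : ℤ) ^ 3 * ((a : ℤ) - 2 * b) < a) :
    k * g * ((a : ℤ) - 2 * b) < a := by
  have habz : (0 : ℤ) ≤ (a : ℤ) - 2 * b := by
    have : (2 : ℤ) * b ≤ a := by exact_mod_cast hab
    linarith
  have hgz : (g : ℤ) ≤ G := by exact_mod_cast hg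
  have h1 : k * g ≤ (G : ℤ) ^ 3 := by
    calc k * g ≤ (G : ℤ) ^ 2 * G := mul_le_mul hkG hgz (by positivity) (by positivity)
      _ = (G : ℤ) ^ 3 := by ring
  exact (mul_le_mul_of_nonneg_right h1 habz).trans_lt hgap

theorem step_mult [NeZero a] {T : Finset X} {x y : X → ZMod a} {g b G : ℕ} (hb : 0 < b)
    (hab : 2 * b ≤ a) (hg2 : 2 ≤ g) (hgG : g ≤ G) (hgap : (G : ℤ) ^ 3 * ((a : ℤ) - 2 * b) < a)
    (hy : Osc T y ((b : ℤ) - 1)) {ε : ℤ} (hε : ε = 1 ∨ ε = -1)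
    (hrel : ∀ u ∈ T, ∀ t ∈ T, (g : ZMod a) * (x u - x t) = (ε : ZMod a) * (y u - y t)) :
    ∃ T' ⊆ T, T.card ≤ 2 * T'.card ∧ Osc T' x ((b : ℤ) - 1) := by
  classical
  rcases T.eq_empty_or_nonempty with rfl | hne
  · exact ⟨∅, subset_rfl, by simp, fun _ => 0, by simp, by simp⟩
  obtain ⟨f, hf1, hf2⟩ := hy
  have hb1 : (1 : ℤ) ≤ b := by exact_mod_cast hb
  have habz : (0 : ℤ) ≤ (a : ℤ) - 2 * b := by
    have : (2 : ℤ) * b ≤ a := by exact_mod_cast hab
    linarith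
  have hF : ∀ u ∈ T, ∀ t ∈ T, ε * f u - ε * f t ≤ (b : ℤ) - 1 := by
    intro u hu t ht
    have h1 := hf2 u hu t ht
    have h2 := hf2 t ht u hu
    rcases hε with rfl | rfl <;> linarith
  have hrel' : ∀ u ∈ T, ∀ t ∈ T, (g : ZMod a) * (x u - x t) = ((ε * f u - ε * f t : ℤ) : ZMod a) := by
    intro u hu t ht
    rw [hrel u hu t ht]
    push_cast
    rw [hf1 u hu, hf1 t ht]
    ring
  have hG2 : (2 : ℤ) ≤ G := by exact_mod_cast hg2.trans hgG
  rcases Nat.even_or_odd' g with ⟨s, rfl | rfl⟩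
  · have h4 := gap_mul (k := 4) (by norm_num) (by nlinarith) hgG hab hgap
    push_cast at h4
    refine child_even (F := fun t => ε * f t) (D := (b : ℤ) - 1) (s := s) (by omega) hF ?_ hrel'
    nlinarith
  · have hs : 0 < s := by omega
    have hs1 : (1 : ℤ) ≤ s := by exact_mod_cast hs
    have hG3 : (3 : ℤ) ≤ G := by
      have : 3 ≤ G := by omega
      exact_mod_cast this
    have h4 := gap_mul (k := 9) (by norm_num) (by nlinarith) hgG hab hgap
    push_cast at h4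
    have h5 : (0 : ℤ) ≤ ((s : ℤ) - 1) * ((a : ℤ) - 2 * b) := mul_nonneg (by linarith) habz
    obtain ⟨t0, ht0, hmin⟩ := T.exists_min_image (fun t => ε * f t) hne
    obtain ⟨T', hT', hc, ho⟩ := child_odd (a := a) (T := T) (x := x) (F := fun t => ε * f t)
      (D := (b : ℤ) - 1) (m0 := ε * f t0) (s := s) (b := b) hs hmin
      (fun t ht => by
        have := hF t ht t0 ht0
        linarith)
      (by nlinarith) (u := (2 * s + 1) * (b : ℤ) - 1 - a * s) rfl (by nlinarith) hrel'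
    refine ⟨T', hT', ?_, ho⟩
    have h6 : (2 * s + 1) * T.card ≤ (2 * s + 1) * (2 * T'.card) := by
      calc (2 * s + 1) * T.card ≤ _ := Nat.le_add_right _ _
        _ ≤ 2 * (2 * s + 1) * T'.card := hc
        _ = (2 * s + 1) * (2 * T'.card) := by ring
    exact Nat.le_of_mul_le_mul_left h6 (by omega)

/-- A cycle of even multipliers. -/
theorem step_even [NeZero a] {T : Finset X} {y : X → ZMod a} {b G m : ℕ} (hab : 2 * b ≤ a)
    (hgap : (G : ℤ) ^ 3 * ((a : ℤ) - 2 * b) < a) (hm : 0 < m) {s : ℕ → ℕ} (hs : ∀ k < m, 1 ≤ s k)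
    (hG : ∀ k < m, 2 * s k ≤ G) {δ : ℤ} (hδ : δ = 1 ∨ δ = -1)
    (hy : ∀ u ∈ T, ∀ t ∈ T,
      ((cc (fun k => 2 * (s k : ℤ)) m - δ : ℤ) : ZMod a) * (y u - y t) = 0) :
    ∃ T' ⊆ T, T.card ≤ 2 ^ m * T'.card ∧ ∀ k < m, ∀ ε : ℤ, (ε = 1 ∨ ε = -1) →
      ∀ x : X → ZMod a, (∀ u ∈ T', ∀ t ∈ T', x u - x t =
        (ε : ZMod a) * (((cc (fun k => 2 * (s k : ℤ)) k : ℤ) : ZMod a) * (y u - y t))) →
      Osc T' x ((b : ℤ) - 1) := by
  classical
  set g : ℕ → ℤ := fun k => 2 * (s k : ℤ) with hg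
  have hcc : ∀ k ≤ m, (2 : ℤ) ^ k ≤ cc g k := by
    intro k
    induction k with
    | zero => simp [cc]
    | succ k ih =>
      intro hk
      have h1 := ih (by omega)
      have h2 : (1 : ℤ) ≤ s k := by exact_mod_cast hs k (by omega)
      rw [cc, hg]
      dsimp only
      rw [pow_succ]
      have h3 : (0 : ℤ) < 2 ^ k := by positivity
      nlinarith
  have hNpos : 0 < cc g m - δ := by
    have h1 := hcc m le_rfl
    have h2 : (2 : ℤ) ≤ 2 ^ m := by
      calc (2 : ℤ) = 2 ^ 1 := by norm_num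
        _ ≤ 2 ^ m := pow_le_pow_right₀ (by norm_num) hm
    rcases hδ with rfl | rfl <;> linarith
  obtain ⟨N, hN⟩ := Int.eq_ofNat_of_zero_le hNpos.le
  have hNz : N ≠ 0 := by
    rintro rfl
    rw [hN] at hNpos
    simp at hNpos
  have : NeZero N := ⟨hNz⟩
  obtain ⟨W, hW1, hW2⟩ := even_set hm hs hG hδ (N := N) hN.symm
  obtain ⟨T', hT', hc, ho⟩ := transfer (b := b) T y (N := N) (fun u hu t ht => by
    have h1 := hy u hu t ht
    rw [hN] at h1
    push_cast at h1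
    exact h1) W
  refine ⟨T', hT', ?_, ?_⟩
  · have hWpos : 0 < W.card := by
      rcases Nat.eq_zero_or_pos W.card with h | h
      · rw [h] at hW1
        omega
      · exact h
    have h1 : W.card * T.card ≤ W.card * (2 ^ m * T'.card) := by
      calc W.card * T.card = T.card * W.card := mul_comm _ _
        _ ≤ N * T'.card := hc
        _ ≤ (2 ^ m * W.card) * T'.card := Nat.mul_le_mul_right _ hW1
        _ = W.card * (2 ^ m * T'.card) := by ring
    exact Nat.le_of_mul_le_mul_left h1 hWpos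
  · intro k hk ε hε x hx
    obtain ⟨L, hL1, hL2⟩ := hW2 k hk
    refine ho (cc g k) L hL1 ?_ ε hε x hx
    have hG1 : (1 : ℤ) ≤ (G : ℤ) ^ 3 := by
      have : 1 ≤ G := by
        have h1 := hs 0 hm
        have h2 := hG 0 hm
        omega
      exact one_le_pow₀ (by exact_mod_cast this)
    have haz : (0 : ℤ) < a := by exact_mod_cast NeZero.pos a
    have hNz' : (0 : ℤ) < N := by exact_mod_cast NeZero.pos N
    have h1 : 2 * (G : ℤ) ^ 3 * ((a : ℤ) * L) < 2 * (G : ℤ) ^ 3 * (b * N) := by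
      calc 2 * (G : ℤ) ^ 3 * ((a : ℤ) * L) = a * (2 * (G : ℤ) ^ 3 * L) := by ring
        _ ≤ a * (((G : ℤ) ^ 3 - 1) * N) := mul_le_mul_of_nonneg_left hL2 haz.le
        _ = N * ((G : ℤ) ^ 3 * a - a) := by ring
        _ < N * ((G : ℤ) ^ 3 * (2 * b)) := mul_lt_mul_of_pos_left (by linarith) hNz'
        _ = 2 * (G : ℤ) ^ 3 * (b * N) := by ring
    exact lt_of_mul_lt_mul_left h1 (by positivity)

/-- Two coordinates of a cycle, the first one with an odd multiplier. -/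
theorem step_odd [NeZero a] {T : Finset X} {x y : X → ZMod a} {b G s : ℕ} (hb : 0 < b)
    (hab : 2 * b ≤ a) (hgap : (G : ℤ) ^ 3 * ((a : ℤ) - 2 * b) < a) (hs : 0 < s)
    (hG : 2 * s + 1 ≤ G) {N : ℕ} (hN : 0 < N) (hcop : Nat.Coprime (2 * s + 1) N) {ε : ℤ}
    (hε : ε = 1 ∨ ε = -1) (hx : ∀ u ∈ T, ∀ t ∈ T, (N : ZMod a) * (x u - x t) = 0)
    (hxy : ∀ u ∈ T, ∀ t ∈ T,
      ((2 * s + 1 : ℕ) : ZMod a) * (x u - x t) = (ε : ZMod a) * (y u - y t)) :
    ∃ T' ⊆ T, T.card ≤ 4 * T'.card ∧ Osc T' x ((b : ℤ) - 1) ∧ Osc T' y ((b : ℤ) - 1) := by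
  classical
  have : NeZero N := ⟨hN.ne'⟩
  set κ : ZMod N := ((2 * s + 1 : ℕ) : ZMod N)⁻¹ with hκ
  have hκ1 : κ * ((2 * s + 1 : ℕ) : ZMod N) = 1 := by
    rw [hκ, mul_comm]
    exact ZMod.coe_mul_inv_eq_one _ hcop
  obtain ⟨W, hW1, L, hL, ho1, ho2⟩ := odd_pair hb hab hs hG hgap hκ1
  have hεε : (ε : ZMod a) * ε = 1 := by
    rcases hε with rfl | rfl <;> simp
  have hy : ∀ u ∈ T, ∀ t ∈ T, (N : ZMod a) * (y u - y t) = 0 := by
    intro u hu t ht
    have h1 := hxy u hu t ht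
    have h2 := hx u hu t ht
    have h3 : (y u - y t) = (ε : ZMod a) * (((2 * s + 1 : ℕ) : ZMod a) * (x u - x t)) := by
      rw [h1, ← mul_assoc, hεε, one_mul]
    rw [h3]
    linear_combination ((ε : ZMod a) * ((2 * s + 1 : ℕ) : ZMod a)) * h2
  obtain ⟨T', hT', hc, ho⟩ := transfer (b := b) T y (N := N) hy W
  obtain ⟨r, hr⟩ : ∃ r : ℤ, (κ.val : ℤ) * (2 * s + 1) - 1 = N * r := by
    have h1 : (((κ.val : ℤ) * (2 * s + 1) - 1 : ℤ) : ZMod N) = 0 := by
      push_cast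
      rw [ZMod.natCast_zmod_val]
      push_cast at hκ1
      rw [hκ1, sub_self]
    rw [ZMod.intCast_zmod_eq_zero_iff_dvd] at h1
    exact h1
  refine ⟨T', hT', ?_, ?_, ?_⟩
  · have hWpos : 0 < W.card := by
      rcases Nat.eq_zero_or_pos W.card with h | h
      · rw [h] at hW1
        omega
      · exact h
    have h1 : W.card * T.card ≤ W.card * (4 * T'.card) := by
      calc W.card * T.card = T.card * W.card := mul_comm _ _
        _ ≤ N * T'.card := hc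
        _ ≤ (4 * W.card) * T'.card := Nat.mul_le_mul_right _ hW1
        _ = W.card * (4 * T'.card) := by ring
    exact Nat.le_of_mul_le_mul_left h1 hWpos
  · refine ho (κ.val : ℤ) L ?_ hL ε hε x ?_
    · push_cast
      rw [ZMod.natCast_zmod_val]
      exact ho2
    · intro u hu t ht
      have h1 := hxy u (hT' hu) t (hT' ht)
      have h2 := hx u (hT' hu) t (hT' ht)
      have h3 : (((κ.val : ℤ) * (2 * s + 1) - 1 : ℤ) : ZMod a) = ((N * r : ℤ) : ZMod a) := by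
        rw [hr]
      push_cast at h1 h3 ⊢
      have h4 : (y u - y t) = (ε : ZMod a) * ((2 * (s : ZMod a) + 1) * (x u - x t)) := by
        rw [h1, ← mul_assoc, hεε, one_mul]
      rw [h4]
      linear_combination (-(ε : ZMod a) * ε * (x u - x t)) * h3 - ((ε : ZMod a) * ε * r) * h2 -
        (x u - x t) * hεε
  · refine ho 1 L ?_ hL 1 (Or.inl rfl) y ?_
    · simpa using ho1
    · intro u _ t _
      push_cast
      ring

end Pool.Agent.Hhelper71.Dbl
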